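import Pool.Agent.Work.MP_b5407d_pos_helper57.MirHat
import Pool.Agent.Work.MP_b5407d_pos_helper13.NCglue

/-! # The last case for positive tilts from the geometric inputs (helper57) -/

set_option autoImplicit false

open MeasureTheory Set Filter Topology

namespace Pool.Agent.Work.MP_b5407d_pos_h57

open Pool.LBM Pool.Agent.Work.MP_b5407d_pos_h47
open Pool.Agent.Work.MP_b5407d_pos_h9.FV hiding mE
open Pool.Agent.Work.MP_b5407d_pos_h13 (mr std_mr pJ_mr mr_k mr4 CaseLast)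

/-- input (Q1): the right-most point is below `M2` -/
def InQ1 (v w : ℝ) : Prop := ∀ (m : ℕ) (a b : ℕ → ℝ) (p q : ℕ), Std m 0 a b → Spl m a b p q →
  mE v (a 1) * mE w (b m) < pJ v w a b m →
  pJ v w a b m * pd v w a b m ≤ mE w (b m) * pP v w a b m →
  mE v (a 1) * pY v w a b m q < pJ v w a b m

/-- input (Q2): the right-most point is beyond `M1` -/
def InQ2 (v w : ℝ) : Prop := ∀ (m : ℕ) (a b : ℕ → ℝ) (p q : ℕ), Std m 0 a b → Spl m a b p q →
  mE v (a 1) * mE w (b m) < pJ v w a b m →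
  pJ v w a b m * pd v w a b m ≤ mE w (b m) * pP v w a b m →
  pJ v w a b m < mE w (b m) * pX v w a b q

/-- input (Za) -/
def InZa (v w : ℝ) : Prop := ∀ (m : ℕ) (a b : ℕ → ℝ) (p q : ℕ), Std m 0 a b → Spl m a b p q →
  mE v (a 1) * mE w (b m) < pJ v w a b m → ∀ z2 t2 : ℝ, z2 * mE v (a 1) = pJ v w a b m →
  t2 ∈ Icc (q : ℝ) m → pY v w a b m t2 = z2 → pX v w a b t2 ≤ mE v (a 1) →
  (∀ t ∈ Icc (1 : ℝ) m, mE v (a 1) ≤ pX v w a b t → pY v w a b m t ≤ z2) →
  pM v w a b m 0 - mE v (a 1) * pN v w a b m 0 - z2 * pP v w a b m +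
    mE v (a 1) * z2 * pd v w a b m ≤ 0

theorem lastPP_of (hv : ∀ v w : ℝ, 0 < v → 0 < w → InQ1 v w) (h2 : ∀ v w : ℝ, 0 < v → 0 < w →
    InQ2 v w) (hZ : ∀ v w : ℝ, 0 < v → 0 < w → InZa v w) {v w : ℝ} (v0 : 0 < v) (w0 : 0 < w) :
    CaseLast v w := by
  intro m a b h hJ c1 c2
  have hD : 0 < pd v w a b m := MP_b5407d_pos_h13.pd_pos (MP_b5407d_pos_h13.CP_of_Std h)
  have d1 : pJ v w a b m * pd v w a b m ≤ mE w (b m) * pP v w a b m := by
    rwa [mul_div_assoc', le_div_iff₀ hD] at c1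
  have d2 : pJ v w a b m * pd v w a b m ≤ mE v (a 1) * pN v w a b m 0 := by
    rwa [mul_div_assoc', le_div_iff₀ hD] at c2
  obtain ⟨p, q, S⟩ := exists_spl h
  have h' := std_mr h
  obtain ⟨p2, q2, S2⟩ := exists_spl h'
  obtain ⟨g1, g2, g3, g4⟩ := mr4 v w h.a0 h.am h.br h.br1 h.lt
  have hJm := pJ_mr (v := v) (w := w) h
  have hm1 : 1 ≤ m := h.lt
  have ea : mr m 0 a m = a 1 := by rw [mr_k a hm1]; congr 1; omega
  have eb : mr m 0 b 1 = b m := by rw [mr_k b le_rfl]; congr 1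
  have hUB : 0 < mE v (a 1) := X0_pos v h
  have hbm : 0 < b m := by have := h.left; rwa [h.br] at this
  have hUL : 0 < mE w (b m) := by rw [← mE_0 w]; exact mE_mono w hbm
  -- mirrored inputs
  have hJ' : mE w (mr m 0 b 1) * mE v (mr m 0 a m) < pJ w v (mr m 0 b) (mr m 0 a) m := by
    rw [ea, eb, hJm, mul_comm]; exact hJ
  have d2' : pJ w v (mr m 0 b) (mr m 0 a) m * pd w v (mr m 0 b) (mr m 0 a) m ≤
      mE v (mr m 0 a m) * pP w v (mr m 0 b) (mr m 0 a) m := by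
    rw [ea, hJm, g1, g2]; exact d2
  have Q1 := hv v w v0 w0 m a b p q h S hJ d1
  have Q2 := h2 v w v0 w0 m a b p q h S hJ d1
  have R1 := hv w v w0 v0 m _ _ p2 q2 h' S2 hJ' d2'
  have R2 := h2 w v w0 v0 m _ _ p2 q2 h' S2 hJ' d2'
  have hp1 : (1 : ℝ) ≤ p := by exact_mod_cast S.p1
  have hpq : (p : ℝ) ≤ q := Nat.cast_le.2 S.pq
  have hqm : (q : ℝ) ≤ m := Nat.cast_le.2 S.qm.le
  have hp2 : (1 : ℝ) ≤ p2 := by exact_mod_cast S2.p1
  have hpq2 : (p2 : ℝ) ≤ q2 := Nat.cast_le.2 S2.pq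
  have hqm2 : (q2 : ℝ) ≤ m := Nat.cast_le.2 S2.qm.le
  have mq2 : (q2 : ℝ) ∈ Icc (1 : ℝ) m := ⟨hp2.trans hpq2, hqm2⟩
  rw [eb, hJm, pY_mir h mq2] at R1
  rw [ea, hJm, pX_mir h mq2] at R2
  set kN : ℝ := (m : ℝ) + 1 - q2 with hkN
  have kN1 : 1 ≤ kN := by rw [hkN]; linarith
  have kNm : kN ≤ m := by rw [hkN]; linarith [hp2.trans hpq2]
  -- monotonicity
  have Xdn := X_anti (v := v) (w := w) S
  have Xdn2 := X_anti (v := w) (w := v) S2
  have Yq := Y_mono_q (v := v) (w := w) h S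
  have Yup : MonotoneOn (pY v w a b m) (Icc 1 kN) := by
    intro s hs t ht hst
    have ms : (m : ℝ) + 1 - s ∈ Icc (1 : ℝ) m := mir_mem ⟨hs.1, hs.2.trans kNm⟩
    have mt : (m : ℝ) + 1 - t ∈ Icc (1 : ℝ) m := mir_mem ⟨ht.1, ht.2.trans kNm⟩
    have e1 := pX_mir (v := v) (w := w) h ms
    have e2 := pX_mir (v := v) (w := w) h mt
    have e3 : (m : ℝ) + 1 - ((m : ℝ) + 1 - s) = s := by ring
    have e4 : (m : ℝ) + 1 - ((m : ℝ) + 1 - t) = t := by ring
    rw [e3] at e1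
    rw [e4] at e2
    rw [← e1, ← e2]
    refine Xdn2 ⟨?_, mt.2⟩ ⟨?_, ms.2⟩ (by linarith)
    · have := ht.2; rw [hkN] at this; linarith
    · have := hs.2; rw [hkN] at this; linarith
  have hqk : (q : ℝ) ≤ kN := by
    by_contra hn; rw [not_le] at hn
    have h3 := Yq ⟨kN1, hn.le⟩ ⟨hp1.trans hpq, le_rfl⟩ hn.le
    have h4 := mul_le_mul_of_nonneg_left h3 hUB.le
    linarith
  have hXc : Continuous (pX v w a b) := XAC.cont
  have hYc : Continuous (pY v w a b m) := (YAC m).cont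
  obtain ⟨M1, hM1⟩ : ∃ M1, M1 * mE w (b m) = pJ v w a b m :=
    ⟨pJ v w a b m / mE w (b m), div_mul_cancel₀ _ hUL.ne'⟩
  obtain ⟨M2, hM2⟩ : ∃ M2, M2 * mE v (a 1) = pJ v w a b m :=
    ⟨pJ v w a b m / mE v (a 1), div_mul_cancel₀ _ hUB.ne'⟩
  have xq : M1 < pX v w a b q := by
    by_contra hn; rw [not_lt] at hn
    have := mul_le_mul_of_nonneg_left hn hUL.le
    linarith
  have xk : pX v w a b kN < M1 := by
    by_contra hn; rw [not_lt] at hn
    have := mul_le_mul_of_nonneg_left hn hUL.le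
    linarith
  have yq : pY v w a b m q < M2 := by
    by_contra hn; rw [not_lt] at hn
    have := mul_le_mul_of_nonneg_left hn hUB.le
    linarith
  have yk : M2 < pY v w a b m kN := by
    by_contra hn; rw [not_lt] at hn
    have := mul_le_mul_of_nonneg_left hn hUB.le
    linarith
  obtain ⟨t1, mt1, ht1⟩ : ∃ t1 ∈ Icc (q : ℝ) kN, pX v w a b t1 = M1 := by
    obtain ⟨z, hz, hz'⟩ := intermediate_value_Icc' hqk (f := pX v w a b) hXc.continuousOn
      ⟨xk.le, xq.le⟩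
    exact ⟨z, hz, hz'⟩
  obtain ⟨t2, mt2, ht2⟩ : ∃ t2 ∈ Icc (q : ℝ) kN, pY v w a b m t2 = M2 := by
    obtain ⟨z, hz, hz'⟩ := intermediate_value_Icc hqk (f := pY v w a b m) hYc.continuousOn
      ⟨yq.le, yk.le⟩
    exact ⟨z, hz, hz'⟩
  have q1 : (1 : ℝ) ≤ q := hp1.trans hpq
  have m1' : t1 ∈ Icc (1 : ℝ) m := ⟨q1.trans mt1.1, mt1.2.trans kNm⟩
  have m2' : t2 ∈ Icc (1 : ℝ) m := ⟨q1.trans mt2.1, mt2.2.trans kNm⟩
  rcases lt_or_ge (pX v w a b t2) (mE v (a 1)) with k2 | k2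
  · -- no point beyond `P2`
    have hz := hZ v w v0 w0 m a b p q h S hJ M2 t2 hM2 ⟨mt2.1, m2'.2⟩ ht2 k2.le (by
      intro t ht hX
      rcases lt_or_ge t t2 with h3 | h3
      · rw [← ht2]; exact Yup ⟨ht.1, h3.le.trans mt2.2⟩ ⟨m2'.1, mt2.2⟩ h3.le
      · have := Xdn ⟨hpq.trans mt2.1, m2'.2⟩ ⟨hpq.trans (mt2.1.trans h3), ht.2⟩ h3
        linarith)
    refine of_Z hD hz (mul_nonneg ?_ ?_)
    · have h3 : mE v (a 1) ≤ M1 := by
        by_contra hn; rw [not_le] at hn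
        have := mul_lt_mul_of_pos_right hn hUL
        linarith
      have h4 : (pP v w a b m - M1 * pd v w a b m) * mE w (b m) =
          mE w (b m) * pP v w a b m - pJ v w a b m * pd v w a b m := by
        linear_combination (-pd v w a b m) * hM1
      have h5 : 0 ≤ pP v w a b m - M1 * pd v w a b m := by
        by_contra hn; rw [not_le] at hn
        have := mul_neg_of_neg_of_pos hn hUL
        linarith
      have := mul_le_mul_of_nonneg_right h3 hD.le
      linarith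
    · have h4 : (pN v w a b m 0 - M2 * pd v w a b m) * mE v (a 1) =
          mE v (a 1) * pN v w a b m 0 - pJ v w a b m * pd v w a b m := by
        linear_combination (-pd v w a b m) * hM2
      by_contra hn; rw [not_le] at hn
      have := mul_neg_of_neg_of_pos hn hUB
      linarith
  · rcases lt_or_ge (pY v w a b m t1) (mE w (b m)) with k1 | k1
    · -- no point beyond `P1`
      have ms : (m : ℝ) + 1 - t1 ∈ Icc (1 : ℝ) m := mir_mem m1'
      have e3 : (m : ℝ) + 1 - ((m : ℝ) + 1 - t1) = t1 := by ring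
      have hz := hZ w v w0 v0 m _ _ p2 q2 h' S2 hJ' M1 ((m : ℝ) + 1 - t1)
        (by rw [eb, hJm]; exact hM1) ⟨by have := mt1.2; rw [hkN] at this; linarith, ms.2⟩
        (by rw [pY_mir h ms, e3]; exact ht1) (by rw [pX_mir h ms, e3, eb]; exact k1.le) (by
          intro t ht hX
          rw [pY_mir h ht]
          rw [pX_mir h ht, eb] at hX
          have mt := mir_mem ht
          rcases lt_or_ge ((m : ℝ) + 1 - t) t1 with h3 | h3
          · have := Yup ⟨mt.1, h3.le.trans mt1.2⟩ ⟨m1'.1, mt1.2⟩ h3.le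
            linarith
          · rw [← ht1]
            exact Xdn ⟨hpq.trans mt1.1, m1'.2⟩ ⟨hpq.trans (mt1.1.trans h3), mt.2⟩ h3)
      rw [eb, g1, g2, g3, g4] at hz
      have h6 : mE w (b m) ≤ M2 := by
        by_contra hn; rw [not_le] at hn
        have := mul_lt_mul_of_pos_right hn hUB
        linarith
      have h4 : (pN v w a b m 0 - M2 * pd v w a b m) * mE v (a 1) =
          mE v (a 1) * pN v w a b m 0 - pJ v w a b m * pd v w a b m := by
        linear_combination (-pd v w a b m) * hM2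
      have h5 : 0 ≤ pN v w a b m 0 - M2 * pd v w a b m := by
        by_contra hn; rw [not_le] at hn
        have := mul_neg_of_neg_of_pos hn hUB
        linarith
      have h7 := mul_le_mul_of_nonneg_right h6 hD.le
      have h8 : (pP v w a b m - M1 * pd v w a b m) * mE w (b m) =
          mE w (b m) * pP v w a b m - pJ v w a b m * pd v w a b m := by
        linear_combination (-pd v w a b m) * hM1
      have h9 : 0 ≤ pP v w a b m - M1 * pd v w a b m := by
        by_contra hn; rw [not_le] at hn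
        have := mul_neg_of_neg_of_pos hn hUL
        linarith
      have := of_Z hD hz (mul_nonneg (by linarith) h9)
      linarith
    · exfalso
      refine pp_core v0 w0 h hJ m1' m2' (by rw [ht1, mul_comm]; exact hM1) k1
        (by rw [ht2, mul_comm]; exact hM2) k2 ?_
      rcases le_total t1 t2 with h12 | h12
      · exact Or.inl ⟨h12, Xdn ⟨hpq.trans mt1.1, m1'.2⟩ ⟨hpq.trans mt2.1, m2'.2⟩ h12,
          Yup ⟨m1'.1, mt1.2⟩ ⟨m2'.1, mt2.2⟩ h12⟩
      · exact Or.inr ⟨h12, Xdn ⟨hpq.trans mt2.1, m2'.2⟩ ⟨hpq.trans mt1.1, m1'.2⟩ h12,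
          Yup ⟨m2'.1, mt2.2⟩ ⟨m1'.1, mt1.2⟩ h12⟩

end Pool.Agent.Work.MP_b5407d_pos_h57
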