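import Pool.Agent.Work.MP_b5407d_pos_helper57.Pent
import Pool.Agent.Work.MP_b5407d_pos_helper47.W

/-! # Chord lemma and unimodality (helper57) -/

set_option autoImplicit false

open MeasureTheory Set Filter Topology

namespace Pool.Agent.Work.MP_b5407d_pos_h57

open Pool.LBM Pool.Agent.Work.MP_b5407d_pos_h9.FV Pool.Agent.Work.MP_b5407d_pos_h47

/-! ### the function `(1 - e^(-s)) / s` -/

/-- `(1 - e^(-s)) / s` -/
noncomputable def ph (s : ℝ) : ℝ := ∫ u in (0 : ℝ)..1, Real.exp (-(s * u))

/-- its derivative -/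
noncomputable def ph1 (s : ℝ) : ℝ := ∫ u in (0 : ℝ)..1, -u * Real.exp (-(s * u))

theorem ph_C1 : C1t (fun t s => ∫ u in (0 : ℝ)..s, Real.exp (-(t * u)) * (1 : ℝ))
    (fun t s => ∫ u in (0 : ℝ)..s, (-u * Real.exp (-(t * u))) * (1 : ℝ)) := by
  have h : C1t (fun t u : ℝ => Real.exp (-(t * u))) (fun t u : ℝ => -u * Real.exp (-(t * u))) := by
    refine ⟨by fun_prop, by fun_prop, fun t s => ?_⟩
    have h1 : HasDerivAt (fun t : ℝ => -(t * s)) (-(1 * s)) t :=
      ((hasDerivAt_id t).mul_const s).neg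
    exact h1.exp.congr_deriv (by ring)
  exact h.prim (g := fun _ => 1) (Rg.of_cont continuous_const) 0

theorem ph_d (s : ℝ) : HasDerivAt ph (ph1 s) s := by
  have h := ph_C1.der s 1
  simp only [mul_one] at h
  exact h

theorem ph1_c : Continuous ph1 := by
  have h := ph_C1.contt.comp (Continuous.prodMk continuous_id (continuous_const (y := (1 : ℝ))))
  simp only [mul_one] at h
  exact h

theorem ph_mul (s : ℝ) : s * ph s = 1 - Real.exp (-s) := by
  have h : ∀ u ∈ uIcc (0 : ℝ) 1, HasDerivAt (fun u => -Real.exp (-(s * u)))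
      (s * Real.exp (-(s * u))) u := by
    intro u _
    have h1 : HasDerivAt (fun u => -(s * u)) (-(s * 1)) u := ((hasDerivAt_id u).const_mul s).neg
    exact h1.exp.neg.congr_deriv (by ring)
  have hc : Continuous (fun u : ℝ => s * Real.exp (-(s * u))) := by fun_prop
  have h2 := intervalIntegral.integral_eq_sub_of_hasDerivAt h (hc.intervalIntegrable _ _)
  rw [intervalIntegral.integral_const_mul] at h2
  unfold ph
  rw [h2]
  simp
  ring

theorem ph_rel (s : ℝ) : ph s + s * ph1 s = Real.exp (-s) := by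
  have h1 := (hasDerivAt_id s).mul (ph_d s)
  have h2 : HasDerivAt (fun s : ℝ => 1 - Real.exp (-s)) (Real.exp (-s)) s := by
    have := ((hasDerivAt_id s).neg.exp).const_sub 1
    exact this.congr_deriv (by simp)
  have h3 : (fun s : ℝ => 1 - Real.exp (-s)) = (fun s => id s * ph s) := by
    funext s
    rw [id, ph_mul]
  rw [h3] at h2
  have h4 := h1.unique h2
  simpa using h4

theorem ph1_nonpos (s : ℝ) : ph1 s ≤ 0 := by
  have : 0 ≤ ∫ u in (0 : ℝ)..1, -(-u * Real.exp (-(s * u))) := by
    refine intervalIntegral.integral_nonneg zero_le_one fun u hu => ?_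
    have := mul_nonneg hu.1 (Real.exp_pos (-(s * u))).le
    linarith
  rw [intervalIntegral.integral_neg] at this
  unfold ph1
  linarith

theorem ph_pos (s : ℝ) : 0 < ph s := by
  unfold ph
  refine intervalIntegral.intervalIntegral_pos_of_pos_on ?_ (fun u _ => Real.exp_pos _) zero_lt_one
  have hc : Continuous (fun u : ℝ => Real.exp (-(s * u))) := by fun_prop
  exact hc.intervalIntegrable _ _

/-- `e0 ph(s)` is the reciprocal of `sm e0 (e0 e^(-s))` -/
theorem ph_sm {e0 e1 s : ℝ} (h0 : 0 < e0) (h1 : e1 = e0 * Real.exp (-s)) :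
    e0 * ph s * sm e0 e1 = 1 := by
  have he1 : 0 < e1 := by rw [h1]; positivity
  by_cases hs : s = 0
  · subst hs
    have : ph 0 = 1 := by simp [ph]
    simp only [neg_zero, Real.exp_zero, mul_one] at h1
    subst h1
    rw [sm_self, this]; field_simp
  · have h2 := sm_log h0 he1
    have h3 := ph_mul s
    have h4 : Real.log e1 - Real.log e0 = -s := by
      rw [h1, Real.log_mul h0.ne' (Real.exp_pos _).ne', Real.log_exp]; ring
    rw [h4] at h2
    have h5 : e1 - e0 = -(e0 * (s * ph s)) := by rw [h3, h1]; ring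
    rw [h5] at h2
    have h6 : s * (e0 * ph s * sm e0 e1) = s * 1 := by linarith
    exact mul_left_cancel₀ hs h6

/-! ### convexity of the path -/

section path
variable {v w : ℝ} {a b : ℕ → ℝ} {m : ℕ}

theorem cross_nonneg (h : Std m 0 a b) {α t : ℝ} (hα : 0 ≤ α) (hαt : α ≤ t) (ht : t < m) :
    0 ≤ (pl a t - pl a α) * dpl b t - (pl b t - pl b α) * dpl a t := by
  have ht0 : 0 ≤ t := hα.trans hαt
  set k := ⌊t⌋₊ with hk
  set j := ⌊α⌋₊ with hj
  have hkm : k < m := (Nat.floor_lt ht0).2 ht
  have hjk : j ≤ k := Nat.floor_le_floor hαt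
  have hθ0 : 0 ≤ α - j := sub_nonneg.2 (Nat.floor_le hα)
  have hθ1 : α - j ≤ 1 := by have := Nat.lt_floor_add_one α; rw [← hj] at this; linarith
  have ea : pl a t = a k + (t - k) * (a (k + 1) - a k) := rfl
  have eb : pl b t = b k + (t - k) * (b (k + 1) - b k) := rfl
  have ea' : pl a α = a j + (α - j) * (a (j + 1) - a j) := rfl
  have eb' : pl b α = b j + (α - j) * (b (j + 1) - b j) := rfl
  have da : dpl a t = a (k + 1) - a k := rfl
  have db : dpl b t = b (k + 1) - b k := rfl
  rcases eq_or_lt_of_le hjk with hjk | hjk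
  · rw [ea, eb, ea', eb', da, db, hjk]
    apply le_of_eq; ring
  · have c1 := h.conv j k (k + 1) hjk (Nat.lt_succ_self k) hkm
    have c2 : 0 ≤ (a k - a (j + 1)) * (b (k + 1) - b (j + 1)) -
        (b k - b (j + 1)) * (a (k + 1) - a (j + 1)) := by
      rcases eq_or_lt_of_le (Nat.succ_le_of_lt hjk) with h1 | h1
      · have : j + 1 = k := h1
        rw [this]; apply le_of_eq; ring
      · exact (h.conv (j + 1) k (k + 1) h1 (Nat.lt_succ_self k) hkm).le
    have key : (pl a t - pl a α) * dpl b t - (pl b t - pl b α) * dpl a t =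
        (1 - (α - j)) * ((a k - a j) * (b (k + 1) - b j) - (b k - b j) * (a (k + 1) - a j)) +
        (α - j) * ((a k - a (j + 1)) * (b (k + 1) - b (j + 1)) -
          (b k - b (j + 1)) * (a (k + 1) - a (j + 1))) := by
      rw [ea, eb, ea', eb', da, db]; ring
    rw [key]
    exact add_nonneg (mul_nonneg (sub_nonneg.2 hθ1) c1.le) (mul_nonneg hθ0 c2)

/-- **chord lemma** -/
theorem chord (hw : 0 ≤ w) (h : Std m 0 a b) {α β : ℝ} (hα : 0 ≤ α) (hαβ : α ≤ β) (hβ : β ≤ m) :
    pl a β - pl a α ≤ (pX v w a b β - pX v w a b α) * sm (pe v w a b α) (pe v w a b β) := by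
  set eα := pe v w a b α with heα
  have he0 : 0 < eα := pe_pos α
  set Δ : ℝ → ℝ := fun t => v * (pl a t - pl a α) + w * (pl b t - pl b α) with hΔ
  have heq : ∀ t, pe v w a b t = eα * Real.exp (-(Δ t)) := by
    intro t
    rw [heα, pe, pe, ← Real.exp_add]
    congr 1
    simp only [hΔ]; ring
  have hx : AC (fun t => pl a t - pl a α) (dpl a) :=
    ((plAC a).sub (AC.const _)).congr fun s => by ring
  have hy : AC (fun t => pl b t - pl b α) (dpl b) :=
    ((plAC b).sub (AC.const _)).congr fun s => by ring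
  have hs : AC Δ (fun t => v * dpl a t + w * dpl b t) := (hx.smul v).add (hy.smul w)
  have hph := hs.comp ph_d ph1_c
  have hG := ((hx.mul hph).smul eα).sub ((XAC (v := v) (w := w) (a := a) (b := b)).sub
    (AC.const (pX v w a b α)))
  have h1 := hG.eq α β
  have h2 : ∫ t in α..β, (eα * (dpl a t * ph (Δ t) + (pl a t - pl a α) *
      (ph1 (Δ t) * (v * dpl a t + w * dpl b t))) - (pe v w a b t * dpl a t - 0)) ≤ 0 := by
    have h3 : 0 ≤ ∫ t in α..β, -(eα * (dpl a t * ph (Δ t) + (pl a t - pl a α) *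
      (ph1 (Δ t) * (v * dpl a t + w * dpl b t))) - (pe v w a b t * dpl a t - 0)) := by
      rw [intervalIntegral.integral_of_le hαβ, integral_Ioc_eq_integral_Ioo]
      refine setIntegral_nonneg measurableSet_Ioo fun t ht => ?_
      have c := cross_nonneg h hα ht.1.le (ht.2.trans_le hβ)
      have r := ph_rel (Δ t)
      have n := ph1_nonpos (Δ t)
      have e : -(eα * (dpl a t * ph (Δ t) + (pl a t - pl a α) *
          (ph1 (Δ t) * (v * dpl a t + w * dpl b t))) - (pe v w a b t * dpl a t - 0)) =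
          eα * -ph1 (Δ t) * (w * ((pl a t - pl a α) * dpl b t - (pl b t - pl b α) * dpl a t)) := by
        rw [heq t, ← r]
        have hd : Δ t = v * (pl a t - pl a α) + w * (pl b t - pl b α) := rfl
        rw [show Δ t * ph1 (Δ t) = (v * (pl a t - pl a α) + w * (pl b t - pl b α)) * ph1 (Δ t) by
          rw [← hd]]
        ring
      rw [e]
      exact mul_nonneg (mul_nonneg he0.le (neg_nonneg.2 n)) (mul_nonneg hw c)
    rw [intervalIntegral.integral_neg] at h3
    linarith
  rw [h1] at h2
  have h4 : eα * ((pl a β - pl a α) * ph (Δ β)) ≤ pX v w a b β - pX v w a b α := by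
    have : pl a α - pl a α = 0 := sub_self _
    simp only [this, zero_mul, mul_zero, sub_self, sub_zero] at h2
    linarith
  have hsm : eα * ph (Δ β) * sm eα (pe v w a b β) = 1 := ph_sm he0 (heq β)
  have hsp : 0 < sm eα (pe v w a b β) := by
    have h5 : 0 < eα * ph (Δ β) := mul_pos he0 (ph_pos _)
    by_contra hn
    push Not at hn
    have := mul_nonpos_of_nonneg_of_nonpos h5.le hn
    linarith
  have h6 := mul_le_mul_of_nonneg_right h4 hsp.le
  have h7 : eα * ((pl a β - pl a α) * ph (Δ β)) * sm eα (pe v w a b β) =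
      (pl a β - pl a α) * (eα * ph (Δ β) * sm eα (pe v w a b β)) := by ring
  rw [h7, hsm, mul_one] at h6
  exact h6

end path

end Pool.Agent.Work.MP_b5407d_pos_h57
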