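import Pool.Agent.Work.MP_b5407d_pos_helper57.Chord
import Pool.Agent.Work.MP_b5407d_pos_helper13.NC2

/-! # The last case for positive tilts (helper57) -/

set_option autoImplicit false

open MeasureTheory Set Filter Topology

namespace Pool.Agent.Work.MP_b5407d_pos_h57

open Pool.LBM Pool.Agent.Work.MP_b5407d_pos_h47
open Pool.Agent.Work.MP_b5407d_pos_h9.FV hiding mE

/-- the path passes beyond both coordinates of the corner `(M1, M2)` -/
theorem beyondM {v w J UB UL M1 M2 X2 Y1 : ℝ} (hv : 0 < v) (hw : 0 < w) (hUB : 0 < UB)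
    (hUL : 0 < UL) (hJ : UB * UL < J) (hM1 : M1 * UL = J) (hM2 : M2 * UB = J)
    (heT : 0 < 1 - w * UL) (heR : 0 < 1 - v * UB) (hX : M1 ≤ X2) (hY : M2 ≤ Y1)
    (he2 : 0 < 1 + v * w * J - v * X2 - w * M2) (he1 : 0 < 1 + v * w * J - v * M1 - w * Y1) :
    -Real.log (1 - v * UB) / v <
      (UB - X2) * sm (1 - v * UB) (1 + v * w * J - v * X2 - w * M2) +
      (X2 - M1) * sm (1 + v * w * J - v * X2 - w * M2) (1 + v * w * J - v * M1 - w * Y1) +
      (M1 - w * J) * sm (1 + v * w * J - v * M1 - w * Y1) (1 - w * UL) := by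
  have hJ0 : 0 < J := lt_trans (mul_pos hUB hUL) hJ
  have hM1p : 0 < M1 := by
    by_contra h; rw [not_lt] at h
    have := mul_nonpos_of_nonpos_of_nonneg h hUL.le
    linarith
  have hM2p : 0 < M2 := by
    by_contra h; rw [not_lt] at h
    have := mul_nonpos_of_nonpos_of_nonneg h hUB.le
    linarith
  have hUBM : UB ≤ M1 := by
    by_contra h; rw [not_le] at h
    have := mul_lt_mul_of_pos_right h hUL
    linarith
  have hULM : UL ≤ M2 := by
    by_contra h; rw [not_le] at h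
    have := mul_lt_mul_of_pos_right h hUB
    linarith
  have h1 : w * M2 ≤ w * Y1 := mul_le_mul_of_nonneg_left hY hw.le
  have heM : 0 < 1 + v * w * J - v * M1 - w * M2 := by linarith
  have hp := pent1 hv hw hUB hUL hJ hM1 hM2 heT heR hUBM le_rfl hULM le_rfl heM heM
  set eM := 1 + v * w * J - v * M1 - w * M2 with heMd
  set e2 := 1 + v * w * J - v * X2 - w * M2 with he2d
  set e1 := 1 + v * w * J - v * M1 - w * Y1 with he1d
  set eT := 1 - w * UL with heTd
  set eR := 1 - v * UB with heRd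
  have hd : 0 ≤ eM - e1 := by rw [heMd, he1d]; linarith
  have g1 : 0 ≤ (M1 - w * J) * (sm eT e1 - sm eT eM) := by
    rw [sm_sub heT he1 heM]
    refine mul_nonneg ?_ (mul_nonneg hd (Lc_nonneg heT he1 heM))
    have : M1 - w * J = M1 * eT := by rw [heTd, ← hM1]; ring
    rw [this]; positivity
  have g2 : 0 ≤ (X2 - M1) * (sm e2 e1 - sm e2 eM) := by
    rw [sm_sub he2 he1 heM]
    exact mul_nonneg (sub_nonneg.2 hX) (mul_nonneg hd (Lc_nonneg he2 he1 heM))
  have g3 : 0 ≤ (X2 - M1) * sm e2 eM - (X2 - UB) * sm eR e2 + (M1 - UB) * sm eR eM := by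
    have k1 := sm_sub he2 heM heR
    have k2 := sm_sub heR heM he2
    have p1 : Lc eR eM e2 = Lc e2 eM eR := by
      rw [Lc_perm2 eR eM e2, Lc_perm1 eR e2 eM, Lc_perm2 e2 eR eM]
    rw [p1] at k2
    rw [sm_comm he2 heR] at k1
    have d1 : eR - eM = v * (M1 - UB) + w * (M2 * eR) := by
      rw [heRd, heMd, ← hM2]; ring
    have d2 : e2 - eM = -(v * (X2 - M1)) := by rw [he2d, heMd]; ring
    rw [d1] at k1
    rw [d2] at k2
    have e5 : sm e2 eM = sm eR e2 + (v * (M1 - UB) + w * (M2 * eR)) * Lc e2 eM eR := by linarith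
    have e6 : sm eR eM = sm eR e2 + -(v * (X2 - M1)) * Lc e2 eM eR := by linarith
    rw [e5, e6]
    have e7 : (X2 - M1) * (sm eR e2 + (v * (M1 - UB) + w * (M2 * eR)) * Lc e2 eM eR) -
        (X2 - UB) * sm eR e2 + (M1 - UB) * (sm eR e2 + -(v * (X2 - M1)) * Lc e2 eM eR) =
        (X2 - M1) * (w * (M2 * eR)) * Lc e2 eM eR := by ring
    rw [e7]
    exact mul_nonneg (mul_nonneg (sub_nonneg.2 hX) (by positivity)) (Lc_nonneg he2 heM heR)
  rw [sm_comm heT he1] at g1
  rw [sub_self, zero_mul, add_zero, sm_comm heM heR] at hp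
  linarith

section path
variable {v w : ℝ} {a b : ℕ → ℝ} {m p q : ℕ}

theorem X_mono (_h : Std m 0 a b) (S : Spl m a b p q) :
    StrictMonoOn (pX v w a b) (Icc 1 (p : ℝ)) :=
  ac_strictMono (XAC (v := v) (w := w) (a := a) (b := b)) fun t ht =>
    mul_pos (pe_pos t) (lo_pos S t ⟨by linarith [ht.1], ht.2⟩)

theorem da_nonpos (S : Spl m a b p q) {t : ℝ} (ht : t ∈ Ico (p : ℝ) m) : dpl a t ≤ 0 := by
  rcases lt_or_ge t q with h1 | h1
  · exact (mid_zero S t ⟨ht.1, h1⟩).le
  · exact (up_neg S t ⟨h1, ht.2⟩).le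

theorem X_anti (S : Spl m a b p q) : AntitoneOn (pX v w a b) (Icc (p : ℝ) m) := by
  intro s hs t ht hst
  have h1 := (XAC (v := v) (w := w) (a := a) (b := b)).eq s t
  have h2 : 0 ≤ ∫ u in s..t, -(pe v w a b u * dpl a u) := by
    rw [intervalIntegral.integral_of_le hst, integral_Ioc_eq_integral_Ioo]
    refine setIntegral_nonneg measurableSet_Ioo fun u hu => ?_
    have := da_nonpos S (t := u) ⟨hs.1.trans hu.1.le, hu.2.trans_le ht.2⟩
    have := mul_nonneg (pe_pos (v := v) (w := w) (a := a) (b := b) u).le (neg_nonneg.2 this)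
    linarith
  rw [intervalIntegral.integral_neg] at h2
  linarith

theorem X_strictAnti (S : Spl m a b p q) :
    StrictAntiOn (pX v w a b) (Icc (q : ℝ) m) := by
  have h : StrictMonoOn (fun t => -pX v w a b t) (Icc (q : ℝ) m) :=
    ac_strictMono ((XAC (v := v) (w := w) (a := a) (b := b)).neg) fun t ht => by
      have := mul_pos_of_neg_of_neg (neg_neg_of_pos (pe_pos (v := v) (w := w) (a := a) (b := b) t))
        (up_neg S t ht)
      linarith
  intro s hs t ht hst
  have := h hs ht hst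
  simp only at this
  linarith

theorem Y_mono_q (h : Std m 0 a b) (S : Spl m a b p q) :
    MonotoneOn (pY v w a b m) (Icc 1 (q : ℝ)) := by
  intro s hs t ht hst
  have h1 := (YAC (v := v) (w := w) (a := a) (b := b) m).eq s t
  have h2 : 0 ≤ ∫ u in s..t, pe v w a b u * dpl b u := by
    rw [intervalIntegral.integral_of_le hst, integral_Ioc_eq_integral_Ioo]
    refine setIntegral_nonneg measurableSet_Ioo fun u hu => ?_
    refine mul_nonneg (pe_pos u).le ?_
    rcases lt_or_ge u p with h3 | h3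
    · exact lo_b h S u ⟨by linarith [hs.1, hu.1], h3⟩
    · exact (mid_b S u ⟨h3, hu.2.trans_le ht.2⟩).le
  linarith

/-- `Y` increases up to some time and decreases afterwards -/
theorem Y_unimodal (h : Std m 0 a b) : ∃ τ : ℝ, 1 ≤ τ ∧ τ ≤ m ∧
    MonotoneOn (pY v w a b m) (Icc 1 τ) ∧ AntitoneOn (pY v w a b m) (Icc τ m) := by
  obtain ⟨p2, q2, S⟩ := exists_spl (MP_b5407d_pos_h13.std_mr h)
  have hp1 := S.p1
  have hpq := S.pq
  have hqm := S.qm
  have hcast : (((m + 1 - q2 : ℕ) : ℝ)) = (m : ℝ) + 1 - q2 := by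
    rw [Nat.cast_sub (by omega)]; push_cast; ring
  have hq2 : (q2 : ℝ) < m := by exact_mod_cast hqm
  have hq1 : (1 : ℝ) ≤ q2 := by exact_mod_cast hp1.trans hpq
  -- signs
  have s1 : ∀ k : ℕ, 1 ≤ k → k < m + 1 - q2 → 0 ≤ b (k + 1) - b k := by
    intro k hk1 hk2
    have := S.up (m - k) (by omega) (by omega)
    rw [MP_b5407d_pos_h13.mr_k b (by omega), MP_b5407d_pos_h13.mr_k b (by omega)] at this
    have e1 : m + 1 - (m - k + 1) = k := by omega
    have e2 : m + 1 - (m - k) = k + 1 := by omega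
    rw [e1, e2] at this
    linarith
  have s2 : ∀ k : ℕ, m + 1 - q2 ≤ k → k < m → b (k + 1) - b k ≤ 0 := by
    intro k hk1 hk2
    have e1 : m + 1 - (m - k + 1) = k := by omega
    have e2 : m + 1 - (m - k) = k + 1 := by omega
    rcases lt_or_ge (m - k) p2 with h3 | h3
    · have := S.lo (m - k) h3
      rw [MP_b5407d_pos_h13.mr_k b (by omega), MP_b5407d_pos_h13.mr_k b (by omega), e1, e2] at this
      linarith
    · have := S.ve (m - k) h3 (by omega)
      rw [MP_b5407d_pos_h13.mr_k b (by omega), MP_b5407d_pos_h13.mr_k b (by omega), e1, e2] at this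
      linarith
  refine ⟨((m + 1 - q2 : ℕ) : ℝ), by rw [hcast]; linarith, by rw [hcast]; linarith, ?_, ?_⟩
  · intro s hs t ht hst
    have h1 := (YAC (v := v) (w := w) (a := a) (b := b) m).eq s t
    have h2 : 0 ≤ ∫ u in s..t, pe v w a b u * dpl b u := by
      rw [intervalIntegral.integral_of_le hst, integral_Ioc_eq_integral_Ioo]
      refine setIntegral_nonneg measurableSet_Ioo fun u hu => ?_
      have u1 : (1 : ℝ) ≤ u := hs.1.trans hu.1.le
      refine mul_nonneg (pe_pos u).le (s1 _ (Nat.le_floor (by simpa using u1)) ?_)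
      exact (dpl_nat_lt a (by linarith) (hu.2.trans_le ht.2)).1
    linarith
  · intro s hs t ht hst
    have h1 := (YAC (v := v) (w := w) (a := a) (b := b) m).eq s t
    have h2 : 0 ≤ ∫ u in s..t, -(pe v w a b u * dpl b u) := by
      rw [intervalIntegral.integral_of_le hst, integral_Ioc_eq_integral_Ioo]
      refine setIntegral_nonneg measurableSet_Ioo fun u hu => ?_
      have u1 : (((m + 1 - q2 : ℕ) : ℝ)) ≤ u := hs.1.trans hu.1.le
      have h3 : dpl b u ≤ 0 := s2 _ (cast_le_floor u1)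
        (dpl_nat_lt a (le_trans (Nat.cast_nonneg _) u1) (hu.2.trans_le ht.2)).1
      have := mul_nonneg (pe_pos (v := v) (w := w) (a := a) (b := b) u).le (neg_nonneg.2 h3)
      linarith
    rw [intervalIntegral.integral_neg] at h2
    linarith

/-- core form: `V1` on `X = M1`, `V2` on `Y = M2`, in the decreasing part of the chain -/
theorem pp_core (hv : 0 < v) (hw : 0 < w) (h : Std m 0 a b)
    (hJ : mE v (a 1) * mE w (b m) < pJ v w a b m) {t1 t2 : ℝ}
    (m1' : t1 ∈ Icc (1 : ℝ) m) (m2' : t2 ∈ Icc (1 : ℝ) m)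
    (hX1' : mE w (b m) * pX v w a b t1 = pJ v w a b m) (hY1' : mE w (b m) ≤ pY v w a b m t1)
    (hY2' : mE v (a 1) * pY v w a b m t2 = pJ v w a b m) (hX2' : mE v (a 1) ≤ pX v w a b t2)
    (ord : (t1 ≤ t2 ∧ pX v w a b t2 ≤ pX v w a b t1 ∧ pY v w a b m t1 ≤ pY v w a b m t2) ∨
      (t2 ≤ t1 ∧ pX v w a b t1 ≤ pX v w a b t2 ∧ pY v w a b m t2 ≤ pY v w a b m t1)) :
    False := by
  have hUB : 0 < mE v (a 1) := X0_pos v h
  have hbm : 0 < b m := by have := h.left; rwa [h.br] at this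
  have hUL : 0 < mE w (b m) := by rw [← mE_0 w]; exact mE_mono w hbm
  have hX1 := X_1 (v := v) (w := w) h
  have hXm := X_m (v := v) (w := w) h
  have hY1 := Y_1 (v := v) (w := w) h
  have hYm := Y_m (v := v) (w := w) h
  have her := e_rel (v := v) (w := w) (a := a) (b := b) h.a0 m
  set J := pJ v w a b m with hJd
  set UB := mE v (a 1) with hUBd
  set UL := mE w (b m) with hULd
  have hJ0 : 0 < J := lt_trans (mul_pos hUB hUL) hJ
  have heT : 0 < 1 - w * UL := by
    have := mE_r w (b m)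
    have := Real.exp_pos (-(w * b m))
    linarith
  have heR : 0 < 1 - v * UB := by
    have := mE_r v (a 1)
    have := Real.exp_pos (-(v * a 1))
    linarith
  have hM1 : pX v w a b t1 * UL = J := by rw [mul_comm]; exact hX1'
  have hM2 : pY v w a b m t2 * UB = J := by rw [mul_comm]; exact hY2'
  have e1 : pe v w a b t1 = 1 + v * w * J - v * pX v w a b t1 - w * pY v w a b m t1 := by
    have := her t1; unfold ef at this; exact this
  have e2 : pe v w a b t2 = 1 + v * w * J - v * pX v w a b t2 - w * pY v w a b m t2 := by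
    have := her t2; unfold ef at this; exact this
  have eR : pe v w a b 1 = 1 - v * UB := by
    have := her 1; unfold ef at this; rw [hX1, hY1] at this; rw [this]; ring
  have eT : pe v w a b m = 1 - w * UL := by
    have := her m; unfold ef at this; rw [hXm, hYm] at this; rw [this]; ring
  have hlog : -Real.log (1 - v * UB) / v = a 1 := by
    have h1 : 1 - v * UB = Real.exp (-(v * a 1)) := by
      have := mE_r v (a 1); linarith
    rw [h1, Real.log_exp]; field_simp
  have x1 : pl a 1 = a 1 := by have := pl_nat a 1; simpa using this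
  have xm : pl a m = 0 := by rw [pl_nat, h.am]
  rcases ord with ⟨h12, o1, o2⟩ | ⟨h12, o1, o2⟩
  · have hp := pent1 hv hw hUB hUL hJ hM1 hM2 heT heR hX2' o1 hY1' o2
      (by rw [← e2]; exact pe_pos _) (by rw [← e1]; exact pe_pos _)
    rw [hlog, ← e1, ← e2, ← eR, ← eT] at hp
    have c1 := chord (v := v) hw.le h (α := 1) (β := t1) zero_le_one m1'.1 m1'.2
    have c2 := chord (v := v) hw.le h (α := t1) (β := t2) (by linarith [m1'.1]) h12 m2'.2
    have c3 := chord (v := v) hw.le h (α := t2) (β := m) (by linarith [m2'.1]) m2'.2 le_rfl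
    rw [x1, hX1, sm_comm (pe_pos _) (pe_pos _)] at c1
    rw [sm_comm (pe_pos _) (pe_pos _)] at c2
    rw [xm, hXm, sm_comm (pe_pos _) (pe_pos _)] at c3
    linarith
  · have hp := beyondM hv hw hUB hUL hJ hM1 hM2 heT heR o1 o2
      (by rw [← e2]; exact pe_pos _) (by rw [← e1]; exact pe_pos _)
    rw [hlog, ← e1, ← e2, ← eR, ← eT] at hp
    have c1 := chord (v := v) hw.le h (α := 1) (β := t2) zero_le_one m2'.1 m2'.2
    have c2 := chord (v := v) hw.le h (α := t2) (β := t1) (by linarith [m2'.1]) h12 m1'.2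
    have c3 := chord (v := v) hw.le h (α := t1) (β := m) (by linarith [m1'.1]) m1'.2 le_rfl
    rw [x1, hX1] at c1
    rw [xm, hXm] at c3
    linarith

/-- **Positive tilts**: the chain cannot pass beyond both `P1` and `P2`. -/
theorem no_both (hv : 0 < v) (hw : 0 < w) (h : Std m 0 a b)
    (hJ : mE v (a 1) * mE w (b m) < pJ v w a b m) {kE kN s t : ℝ}
    (mE' : kE ∈ Icc (1 : ℝ) m) (mN : kN ∈ Icc (1 : ℝ) m) (ms : s ∈ Icc (1 : ℝ) m)
    (mt : t ∈ Icc (1 : ℝ) m)
    (hEm : ∀ u ∈ Icc (1 : ℝ) m, pX v w a b u ≤ pX v w a b kE)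
    (hE : mE v (a 1) * pY v w a b m kE < pJ v w a b m)
    (hNm : ∀ u ∈ Icc (1 : ℝ) m, pY v w a b m u ≤ pY v w a b m kN)
    (hN : mE w (b m) * pX v w a b kN < pJ v w a b m)
    (hs1 : pJ v w a b m < mE w (b m) * pX v w a b s) (hs2 : mE w (b m) ≤ pY v w a b m s)
    (ht1 : mE v (a 1) ≤ pX v w a b t) (ht2 : pJ v w a b m < mE v (a 1) * pY v w a b m t) :
    False := by
  obtain ⟨p, q, S⟩ := exists_spl h
  obtain ⟨τ, τ1, τm, Yup, Ydn⟩ := Y_unimodal (v := v) (w := w) h
  have hUB : 0 < mE v (a 1) := X0_pos v h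
  have hbm : 0 < b m := by have := h.left; rwa [h.br] at this
  have hUL : 0 < mE w (b m) := by rw [← mE_0 w]; exact mE_mono w hbm
  have hX1 := X_1 (v := v) (w := w) h
  have hXm := X_m (v := v) (w := w) h
  have hY1 := Y_1 (v := v) (w := w) h
  have hYm := Y_m (v := v) (w := w) h
  have her := e_rel (v := v) (w := w) (a := a) (b := b) h.a0 m
  have hp1 : (1 : ℝ) ≤ p := by exact_mod_cast S.p1
  have hpq : (p : ℝ) ≤ q := Nat.cast_le.2 S.pq
  have hqm : (q : ℝ) ≤ m := Nat.cast_le.2 S.qm.le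
  set J := pJ v w a b m with hJd
  set UB := mE v (a 1) with hUBd
  set UL := mE w (b m) with hULd
  have hJ0 : 0 < J := lt_trans (mul_pos hUB hUL) hJ
  obtain ⟨M1, hM1⟩ : ∃ M1, M1 * UL = J := ⟨J / UL, div_mul_cancel₀ _ hUL.ne'⟩
  obtain ⟨M2, hM2⟩ : ∃ M2, M2 * UB = J := ⟨J / UB, div_mul_cancel₀ _ hUB.ne'⟩
  have hM1p : 0 < M1 := by
    by_contra hn; rw [not_lt] at hn
    have := mul_nonpos_of_nonpos_of_nonneg hn hUL.le
    linarith
  have hM2p : 0 < M2 := by
    by_contra hn; rw [not_lt] at hn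
    have := mul_nonpos_of_nonpos_of_nonneg hn hUB.le
    linarith
  have hUBM : UB < M1 := by
    by_contra hn; rw [not_lt] at hn
    have := mul_le_mul_of_nonneg_right hn hUL.le
    linarith
  have hULM : UL < M2 := by
    by_contra hn; rw [not_lt] at hn
    have := mul_le_mul_of_nonneg_right hn hUB.le
    linarith
  have xs : M1 < pX v w a b s := by
    by_contra hn; rw [not_lt] at hn
    have := mul_le_mul_of_nonneg_left hn hUL.le
    linarith
  have yt : M2 < pY v w a b m t := by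
    by_contra hn; rw [not_lt] at hn
    have := mul_le_mul_of_nonneg_left hn hUB.le
    linarith
  have yE : pY v w a b m kE < M2 := by
    by_contra hn; rw [not_lt] at hn
    have := mul_le_mul_of_nonneg_left hn hUB.le
    linarith
  have xN : pX v w a b kN < M1 := by
    by_contra hn; rw [not_lt] at hn
    have := mul_le_mul_of_nonneg_left hn hUL.le
    linarith
  -- positivity of the weights at the corners
  have heT : 0 < 1 - w * UL := by
    have := mE_r w (b m)
    have := Real.exp_pos (-(w * b m))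
    linarith
  have heR : 0 < 1 - v * UB := by
    have := mE_r v (a 1)
    have := Real.exp_pos (-(v * a 1))
    linarith
  have hD2 : 0 < 1 - w * M2 := by
    have h1 := her t
    unfold ef at h1
    have h2 := pe_pos (v := v) (w := w) (a := a) (b := b) t
    have h3 := mul_le_mul_of_nonneg_left ht1 hv.le
    have h4 := mul_lt_mul_of_pos_left yt hw
    have h5 : 0 < (1 - w * M2) * (1 - v * UB) := by
      have : (1 - w * M2) * (1 - v * UB) = 1 + v * w * J - v * UB - w * M2 := by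
        rw [← hM2]; ring
      rw [this]; linarith
    exact (pos_iff_pos_of_mul_pos h5).2 heR
  have hD1 : 0 < 1 - v * M1 := by
    have h1 := her s
    unfold ef at h1
    have h2 := pe_pos (v := v) (w := w) (a := a) (b := b) s
    have h3 := mul_le_mul_of_nonneg_left hs2 hw.le
    have h4 := mul_lt_mul_of_pos_left xs hv
    have h5 : 0 < (1 - v * M1) * (1 - w * UL) := by
      have : (1 - v * M1) * (1 - w * UL) = 1 + v * w * J - v * M1 - w * UL := by
        rw [← hM1]; ring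
      rw [this]; linarith
    exact (pos_iff_pos_of_mul_pos h5).2 heT
  have hwJ : w * J < UB := by
    have : UB - w * J = UB * (1 - w * M2) := by rw [← hM2]; ring
    have := mul_pos hUB hD2
    linarith
  have hvJ : v * J < UL := by
    have : UL - v * J = UL * (1 - v * M1) := by rw [← hM1]; ring
    have := mul_pos hUL hD1
    linarith
  -- monotonicity facts
  have Xup := X_mono (v := v) (w := w) h S
  have Xdn := X_anti (v := v) (w := w) S
  have Xsd := X_strictAnti (v := v) (w := w) S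
  have Yq := Y_mono_q (v := v) (w := w) h S
  have hXpm : ∀ u ∈ Icc (1 : ℝ) m, pX v w a b u ≤ pX v w a b p := by
    intro u hu
    rcases le_total u p with h1 | h1
    · exact Xup.monotoneOn ⟨hu.1, h1⟩ ⟨hp1, le_rfl⟩ h1
    · exact Xdn ⟨le_rfl, hpq.trans hqm⟩ ⟨h1, hu.2⟩ h1
  have mp : (p : ℝ) ∈ Icc (1 : ℝ) m := ⟨hp1, hpq.trans hqm⟩
  have mq : (q : ℝ) ∈ Icc (1 : ℝ) m := ⟨hp1.trans hpq, hqm⟩
  have kE1 : (p : ℝ) ≤ kE := by
    by_contra hn; rw [not_le] at hn
    have := Xup ⟨mE'.1, hn.le⟩ ⟨hp1, le_rfl⟩ hn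
    have := hEm p mp
    linarith
  have kE2 : kE ≤ q := by
    by_contra hn; rw [not_le] at hn
    have := Xsd ⟨le_rfl, hqm⟩ ⟨hn.le, mE'.2⟩ hn
    have := hEm q mq
    linarith
  have yp : ∀ u ∈ Icc (1 : ℝ) p, pY v w a b m u < M2 := by
    intro u hu
    have := Yq ⟨hu.1, hu.2.trans hpq⟩ ⟨mE'.1, kE2⟩ (hu.2.trans kE1)
    linarith
  have qcX : ∀ s1 ∈ Icc (1 : ℝ) m, ∀ s2 s3, s3 ∈ Icc (1 : ℝ) m → s1 ≤ s2 → s2 ≤ s3 →
      ∀ c, c ≤ pX v w a b s1 → c ≤ pX v w a b s3 → c ≤ pX v w a b s2 := by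
    intro s1 m1 s2 s3 m3 h12 h23 c c1 c3
    rcases le_total s2 p with h1 | h1
    · exact c1.trans (Xup.monotoneOn ⟨m1.1, h12.trans h1⟩ ⟨m1.1.trans h12, h1⟩ h12)
    · exact c3.trans (Xdn ⟨h1, h23.trans m3.2⟩ ⟨h1.trans h23, m3.2⟩ h23)
  have qcY : ∀ s1 ∈ Icc (1 : ℝ) m, ∀ s2 s3, s3 ∈ Icc (1 : ℝ) m → s1 ≤ s2 → s2 ≤ s3 →
      ∀ c, c ≤ pY v w a b m s1 → c ≤ pY v w a b m s3 → c ≤ pY v w a b m s2 := by
    intro s1 m1 s2 s3 m3 h12 h23 c c1 c3
    rcases le_total s2 τ with h1 | h1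
    · exact c1.trans (Yup ⟨m1.1, h12.trans h1⟩ ⟨m1.1.trans h12, h1⟩ h12)
    · exact c3.trans (Ydn ⟨h1, h23.trans m3.2⟩ ⟨h1.trans h23, m3.2⟩ h23)
  have hXc : Continuous (pX v w a b) := XAC.cont
  have hYc : Continuous (pY v w a b m) := (YAC m).cont
  -- the two times
  obtain ⟨t1, mt1, ht1'⟩ : ∃ t1 ∈ Icc (p : ℝ) m, pX v w a b t1 = M1 := by
    have h1 := intermediate_value_Icc' (hpq.trans hqm) (f := pX v w a b) hXc.continuousOn
    have h2 : M1 ∈ Icc (pX v w a b m) (pX v w a b p) := by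
      refine ⟨?_, ?_⟩
      · rw [hXm]; linarith
      · linarith [hXpm s ms]
    obtain ⟨z, hz, hz'⟩ := h1 h2
    exact ⟨z, hz, hz'⟩
  obtain ⟨t2, mt2, ht2'⟩ : ∃ t2 ∈ Icc (1 : ℝ) τ, pY v w a b m t2 = M2 := by
    have h1 := intermediate_value_Icc τ1 (f := pY v w a b m) hYc.continuousOn
    have h2 : M2 ∈ Icc (pY v w a b m 1) (pY v w a b m τ) := by
      refine ⟨?_, ?_⟩
      · rw [hY1]; linarith
      · rcases le_total t τ with h3 | h3
        · linarith [Yup ⟨mt.1, h3⟩ ⟨τ1, le_rfl⟩ h3]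
        · linarith [Ydn ⟨le_rfl, τm⟩ ⟨h3, mt.2⟩ h3]
    obtain ⟨z, hz, hz'⟩ := h1 h2
    exact ⟨z, hz, hz'⟩
  have m1' : t1 ∈ Icc (1 : ℝ) m := ⟨hp1.trans mt1.1, mt1.2⟩
  have m2' : t2 ∈ Icc (1 : ℝ) m := ⟨mt2.1, mt2.2.trans τm⟩
  have m1m : (1 : ℝ) ∈ Icc (1 : ℝ) m := ⟨le_rfl, hp1.trans (hpq.trans hqm)⟩
  have mmm : (m : ℝ) ∈ Icc (1 : ℝ) m := ⟨hp1.trans (hpq.trans hqm), le_rfl⟩
  have ht2p : (p : ℝ) < t2 := by
    by_contra hn; rw [not_lt] at hn
    have := yp t2 ⟨mt2.1, hn⟩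
    linarith
  have hst1 : s ≤ t1 := by
    by_contra hn; rw [not_le] at hn
    have := Xdn mt1 ⟨mt1.1.trans hn.le, ms.2⟩ hn.le
    linarith
  have ht2t : t2 ≤ t := by
    by_contra hn; rw [not_le] at hn
    have := Yup ⟨mt.1, hn.le.trans mt2.2⟩ mt2 hn.le
    linarith
  rcases le_or_gt t1 t2 with h12 | h12
  · -- regular position
    have hX2 : pX v w a b t2 ≤ pX v w a b t1 := Xdn mt1 ⟨mt1.1.trans h12, m2'.2⟩ h12
    have hX2' : UB ≤ pX v w a b t2 := qcX 1 m1m t2 t mt mt2.1 ht2t UB (by rw [hX1]) ht1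
    have hY1' : pY v w a b m t1 ≤ pY v w a b m t2 := Yup ⟨m1'.1, h12.trans mt2.2⟩ mt2 h12
    have hY1'' : UL ≤ pY v w a b m t1 := qcY s ms t1 m mmm hst1 m1'.2 UL hs2 (by rw [hYm])
    exact pp_core hv hw h hJ m1' m2' (by rw [ht1', ← hULd, mul_comm]; exact hM1) hY1''
      (by rw [ht2', ← hUBd, mul_comm]; exact hM2) hX2' (Or.inl ⟨h12, hX2, hY1'⟩)
  · -- the chain passes beyond `(M1, M2)`
    have hX2 : pX v w a b t1 ≤ pX v w a b t2 := Xdn ⟨ht2p.le, m2'.2⟩ mt1 h12.le
    have hkN : t1 ≤ kN := by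
      by_contra hn; rw [not_le] at hn
      rcases le_total (p : ℝ) kN with h3 | h3
      · have := Xdn ⟨h3, mN.2⟩ mt1 hn.le
        linarith
      · have h4 := yp kN ⟨mN.1, h3⟩
        have h5 := hNm t mt
        linarith
    have hY1' : pY v w a b m t2 ≤ pY v w a b m t1 := by
      refine qcY t2 m2' t1 kN mN h12.le hkN _ le_rfl ?_
      have h5 := hNm t mt
      linarith
    refine pp_core hv hw h hJ m1' m2' (by rw [ht1', ← hULd, mul_comm]; exact hM1) ?_
      (by rw [ht2', ← hUBd, mul_comm]; exact hM2) ?_ (Or.inr ⟨h12.le, hX2, hY1'⟩)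
    · rw [ht2'] at hY1'; linarith
    · rw [ht1'] at hX2; linarith

end path

end Pool.Agent.Work.MP_b5407d_pos_h57
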