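import Pool.Agent.Work.MP_b5407d_pos_helper57.LastPP2
import Pool.Agent.Work.MP_b5407d_pos_helper9.LastGeo
import Pool.Agent.Work.MP_b5407d_pos_helper13.Lam
import Pool.Agent.Work.MP_b5407d_nc_helper97.Q123

/-! # The last case for positive tilts, the inputs (helper57) -/

set_option autoImplicit false

open MeasureTheory Set Filter Topology

namespace Pool.Agent.Work.MP_b5407d_pos_h57

open Pool.LBM Pool.Agent.Work.MP_b5407d_pos_h47
open Pool.Agent.Work.MP_b5407d_pos_h9.FV hiding mE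
open Pool.Agent.Work.MP_b5407d_pos_h13 (CaseLast)

theorem idn_of {v w : ℝ} {m : ℕ} {a b : ℕ → ℝ} (h : Std m 0 a b) :
    MP_b5407d_pos_h9.LA.Idn v w a b m where
  L := MP_b5407d_pos_h13.L9 h
  Xf := MP_b5407d_pos_h13.Xf9 h
  Yf := MP_b5407d_pos_h13.Yf9 h
  Xf' := MP_b5407d_pos_h13.Xf9' h
  Bf := MP_b5407d_pos_h13.Bf9 h
  sup := MP_b5407d_pos_h13.super9

theorem inQ1 (v w : ℝ) : InQ1 v w := by
  intro m a b p q h S hJ d1
  by_contra hn; rw [not_lt] at hn
  have h1 := MP_b5407d_pos_h9.LA.step_i h S (idn_of h) hn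
  have h2 := MP_b5407d_nc_h97.Q1 h S hJ (by
    rw [intervalIntegral.integral_symm, neg_neg]; exact h1)
  linarith

theorem inQ2 (v w : ℝ) : InQ2 v w := by
  intro m a b p q h S hJ d1
  rw [X_pq S]
  by_contra hn; rw [not_lt] at hn
  have h2 := MP_b5407d_nc_h97.Q2 h S hJ hn
  linarith

/-- **CaseLast for `v, w > 0`** from (Za) -/
theorem lastPP (hZ : ∀ v w : ℝ, 0 < v → 0 < w → InZa v w) {v w : ℝ} (v0 : 0 < v) (w0 : 0 < w) :
    CaseLast v w :=
  lastPP_of (fun v w _ _ => inQ1 v w) (fun v w _ _ => inQ2 v w) hZ v0 w0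

end Pool.Agent.Work.MP_b5407d_pos_h57
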