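import Pool.Agent.Work.MP_b5407d_pos_helper57.LastPP
import Pool.Agent.Work.MP_b5407d_pos_helper13.VBoth

/-! # The hat path of the mirrored polygon (helper57) -/

set_option autoImplicit false

open MeasureTheory Set Filter Topology

namespace Pool.Agent.Work.MP_b5407d_pos_h57

open Pool.LBM Pool.Agent.Work.MP_b5407d_pos_h47
open Pool.Agent.Work.MP_b5407d_pos_h9.FV hiding mE
open Pool.Agent.Work.MP_b5407d_pos_h13 (mr std_mr int_mr2 pe_mr2 pL_mr2 pX_mr2 pJ_mr mr_k)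

section path
variable {v w : ℝ} {a b : ℕ → ℝ} {m : ℕ}

theorem mir_mem {s : ℝ} (hs : s ∈ Icc (1 : ℝ) m) : (m : ℝ) + 1 - s ∈ Icc (1 : ℝ) m :=
  ⟨by linarith [hs.2], by linarith [hs.1]⟩

theorem pX_mir (h : Std m 0 a b) {s : ℝ} (hs : s ∈ Icc (1 : ℝ) m) :
    pX w v (mr m 0 b) (mr m 0 a) s = pY v w a b m (m + 1 - s) := by
  have hs' : s ∈ Icc (((0 : ℕ) : ℝ) + 1) m := by simpa using hs
  have h1 := pX_mr2 (r := 0) (a := a) (b := b) v w h.a0 h.am h.lt hs'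
  have h2 : Pool.Agent.Work.MP_b5407d_pos_h13.Yf 0 a b v w 0 = 0 := by
    simp [Pool.Agent.Work.MP_b5407d_pos_h13.Yf]
  have h3 := (YAC (v := v) (w := w) (a := a) (b := b) m).eq m ((m : ℝ) + 1 - s)
  have h4 := Y_m (v := v) (w := w) h
  have h5 : (((m + 0 + 1 : ℕ) : ℝ)) - s = (m : ℝ) + 1 - s := by push_cast; ring
  rw [h5, h2, h.br, mE_0] at h1
  rw [h1]
  linarith

theorem pY_mir (h : Std m 0 a b) {s : ℝ} (hs : s ∈ Icc (1 : ℝ) m) :
    pY w v (mr m 0 b) (mr m 0 a) m s = pX v w a b (m + 1 - s) := by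
  have hstd := std_mr h
  have h3 := (YAC (v := w) (w := v) (a := mr m 0 b) (b := mr m 0 a) m).eq m s
  have h4 := Y_m (v := w) (w := v) hstd
  have hm1 : 1 ≤ m := h.lt
  have h5 : mr m 0 a m = a 1 := by rw [mr_k a hm1]; congr 1; omega
  rw [h5] at h4
  have h6 : ∫ u in (m : ℝ)..s, pe w v (mr m 0 b) (mr m 0 a) u * dpl (mr m 0 a) u =
      ∫ t in (1 : ℝ)..((m : ℝ) + 1 - s), pe v w a b t * dpl a t := by
    have m1 : (m : ℝ) ∈ Icc (((0 : ℕ) : ℝ) + 1) m := by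
      have : (1 : ℝ) ≤ m := by exact_mod_cast hm1
      simpa using this
    have m2 : s ∈ Icc (((0 : ℕ) : ℝ) + 1) m := by simpa using hs
    have h7 : (∫ u in (m : ℝ)..s, pe w v (mr m 0 b) (mr m 0 a) u * dpl (mr m 0 a) u) =
        ∫ u in (m : ℝ)..s, pe v w a b (((m + 0 + 1 : ℕ) : ℝ) - u) * dpl (mr m 0 a) u := by
      refine intervalIntegral.integral_congr fun u hu => ?_
      have hu' : u ∈ Icc (((0 : ℕ) : ℝ) + 1) m := (ordConnected_Icc.uIcc_subset m1 m2) hu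
      simp only [pe_mr2 v w hu']
    rw [h7, int_mr2 a (pe v w a b) m1 m2]
    have e1 : (((m + 0 + 1 : ℕ) : ℝ)) - m = 1 := by push_cast; ring
    have e2 : (((m + 0 + 1 : ℕ) : ℝ)) - s = (m : ℝ) + 1 - s := by push_cast; ring
    rw [e1, e2]
  have h8 := (XAC (v := v) (w := w) (a := a) (b := b)).eq 1 ((m : ℝ) + 1 - s)
  have h9 := X_1 (v := v) (w := w) h
  rw [h6, h8] at h3
  linarith

end path

end Pool.Agent.Work.MP_b5407d_pos_h57
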