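import Mathlib

set_option autoImplicit false

/-! PENT-1: for positive tilts the hat-plane path through a point beyond each of the two
rectangle corners is at least as long (in the measure `dX / e`) as the rectangle path. -/

namespace Pool.Agent.Work.MP_b5407d_pos_h57

open Real Set MeasureTheory intervalIntegral

/-- reciprocal mean along a segment -/
noncomputable def sm (a b : ℝ) : ℝ := ∫ t in (0:ℝ)..1, 1 / (a + t * (b - a))

/-- weight -/
def wt (a τ : ℝ) : ℝ := a * (1 - τ) + τ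

theorem wt_pos {a τ : ℝ} (ha : 0 < a) (h0 : 0 ≤ τ) (h1 : τ ≤ 1) : 0 < wt a τ := by
  unfold wt
  rcases eq_or_lt_of_le h1 with h | h
  · subst h; norm_num
  · nlinarith [mul_pos ha (sub_pos.2 h)]

/-- the same mean, in symmetric form -/
noncomputable def Sc (a b : ℝ) : ℝ := ∫ τ in (0:ℝ)..1, 1 / (wt a τ * wt b τ)

/-- the second order version -/
noncomputable def Lc (a b c : ℝ) : ℝ :=
  ∫ τ in (0:ℝ)..1, (1 - τ) / (wt a τ * wt b τ * wt c τ)

theorem hasDerivAt_wt (a τ : ℝ) : HasDerivAt (fun s => wt a s) (1 - a) τ := by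
  unfold wt
  have h1 : HasDerivAt (fun s : ℝ => a * (1 - s)) (a * (0 - 1)) τ :=
    ((hasDerivAt_const τ (1:ℝ)).sub (hasDerivAt_id τ)).const_mul a
  have h2 := h1.add (hasDerivAt_id τ)
  have h3 : a * (0 - 1) + 1 = 1 - a := by ring
  rw [h3] at h2
  exact h2

theorem continuous_wt (a : ℝ) : Continuous (fun s => wt a s) := by
  unfold wt; fun_prop

theorem Sc_int {a b : ℝ} (ha : 0 < a) (hb : 0 < b) :
    IntervalIntegrable (fun τ => 1 / (wt a τ * wt b τ)) volume 0 1 := by
  apply ContinuousOn.intervalIntegrable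
  rw [uIcc_of_le zero_le_one]
  apply ContinuousOn.div continuousOn_const
  · exact ((continuous_wt a).mul (continuous_wt b)).continuousOn
  · intro τ hτ
    exact (mul_pos (wt_pos ha hτ.1 hτ.2) (wt_pos hb hτ.1 hτ.2)).ne'

theorem Lc_int {a b c : ℝ} (ha : 0 < a) (hb : 0 < b) (hc : 0 < c) :
    IntervalIntegrable (fun τ => (1 - τ) / (wt a τ * wt b τ * wt c τ)) volume 0 1 := by
  apply ContinuousOn.intervalIntegrable
  rw [uIcc_of_le zero_le_one]
  apply ContinuousOn.div (by fun_prop)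
  · exact (((continuous_wt a).mul (continuous_wt b)).mul (continuous_wt c)).continuousOn
  · intro τ hτ
    exact (mul_pos (mul_pos (wt_pos ha hτ.1 hτ.2) (wt_pos hb hτ.1 hτ.2))
      (wt_pos hc hτ.1 hτ.2)).ne'

theorem lin_pos {a b t : ℝ} (ha : 0 < a) (hb : 0 < b) (h0 : 0 ≤ t) (h1 : t ≤ 1) :
    0 < a + t * (b - a) := by
  have : a + t * (b - a) = (1 - t) * a + t * b := by ring
  rw [this]
  rcases eq_or_lt_of_le h0 with h | h
  · subst h; simpa using ha
  · have := mul_pos h hb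
    have := mul_nonneg (sub_nonneg.2 h1) ha.le
    linarith

theorem sm_log {a b : ℝ} (ha : 0 < a) (hb : 0 < b) : (b - a) * sm a b = log b - log a := by
  unfold sm
  rw [← intervalIntegral.integral_const_mul]
  have h : ∫ t in (0:ℝ)..1, (b - a) * (1 / (a + t * (b - a))) =
      log (a + 1 * (b - a)) - log (a + 0 * (b - a)) := by
    apply integral_eq_sub_of_hasDerivAt (f := fun t => log (a + t * (b - a)))
    · intro t ht
      rw [uIcc_of_le zero_le_one] at ht
      have hp := lin_pos ha hb ht.1 ht.2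
      have h1 : HasDerivAt (fun t : ℝ => a + t * (b - a)) (b - a) t := by
        have := ((hasDerivAt_id t).mul_const (b - a)).const_add a
        simpa using this
      have h2 := h1.log hp.ne'
      rw [mul_one_div]
      exact h2
    · apply ContinuousOn.intervalIntegrable
      rw [uIcc_of_le zero_le_one]
      apply ContinuousOn.mul continuousOn_const
      apply ContinuousOn.div continuousOn_const (by fun_prop)
      intro t ht
      exact (lin_pos ha hb ht.1 ht.2).ne'
  rw [h]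
  congr 2 <;> ring

theorem Sc_log {a b : ℝ} (ha : 0 < a) (hb : 0 < b) : (b - a) * Sc a b = log b - log a := by
  unfold Sc
  rw [← intervalIntegral.integral_const_mul]
  have h : ∫ τ in (0:ℝ)..1, (b - a) * (1 / (wt a τ * wt b τ)) =
      (log (wt a 1) - log (wt b 1)) - (log (wt a 0) - log (wt b 0)) := by
    apply integral_eq_sub_of_hasDerivAt (f := fun τ => log (wt a τ) - log (wt b τ))
    · intro t ht
      rw [uIcc_of_le zero_le_one] at ht
      have hpa := wt_pos ha ht.1 ht.2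
      have hpb := wt_pos hb ht.1 ht.2
      have h2 := ((hasDerivAt_wt a t).log hpa.ne').sub ((hasDerivAt_wt b t).log hpb.ne')
      have h3 : (b - a) * (1 / (wt a t * wt b t)) = (1 - a) / wt a t - (1 - b) / wt b t := by
        rw [mul_one_div, div_sub_div _ _ hpa.ne' hpb.ne']
        congr 1
        unfold wt
        ring
      rw [h3]
      exact h2
    · exact (Sc_int ha hb).const_mul (b - a)
  rw [h]
  have e1 : wt a 1 = 1 := by unfold wt; ring
  have e2 : wt b 1 = 1 := by unfold wt; ring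
  have e3 : wt a 0 = a := by unfold wt; ring
  have e4 : wt b 0 = b := by unfold wt; ring
  rw [e1, e2, e3, e4]
  ring

theorem sm_self {a : ℝ} : sm a a = 1 / a := by
  unfold sm
  simp

theorem Sc_self {a : ℝ} (ha : 0 < a) : Sc a a = 1 / a := by
  unfold Sc
  have h : ∫ τ in (0:ℝ)..1, 1 / (wt a τ * wt a τ) = 1 / (a * wt a 1) - 0 / (a * wt a 0) := by
    apply integral_eq_sub_of_hasDerivAt (f := fun τ => τ / (a * wt a τ))
    · intro t ht
      rw [uIcc_of_le zero_le_one] at ht
      have hpa := wt_pos ha ht.1 ht.2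
      have h2 := (hasDerivAt_id t).div ((hasDerivAt_wt a t).const_mul a) (mul_pos ha hpa).ne'
      have h3 : 1 / (wt a t * wt a t) =
          (1 * (a * wt a t) - id t * (a * (1 - a))) / (a * wt a t) ^ 2 := by
        rw [div_eq_div_iff (mul_pos hpa hpa).ne' (pow_pos (mul_pos ha hpa) 2).ne']
        simp only [id_eq]
        unfold wt
        ring
      rw [h3]
      exact h2
    · exact Sc_int ha ha
  rw [h]
  have e1 : wt a 1 = 1 := by unfold wt; ring
  rw [e1]
  simp

theorem sm_eq_Sc {a b : ℝ} (ha : 0 < a) (hb : 0 < b) : sm a b = Sc a b := by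
  by_cases h : a = b
  · subst h
    rw [sm_self, Sc_self ha]
  · have h1 := sm_log ha hb
    have h2 := Sc_log ha hb
    have h3 : (b - a) * sm a b = (b - a) * Sc a b := by rw [h1, h2]
    exact mul_left_cancel₀ (sub_ne_zero.2 (Ne.symm h)) h3

theorem Sc_comm (a b : ℝ) : Sc a b = Sc b a := by
  unfold Sc
  congr 1
  funext τ
  rw [mul_comm]

theorem sm_comm {a b : ℝ} (ha : 0 < a) (hb : 0 < b) : sm a b = sm b a := by
  rw [sm_eq_Sc ha hb, sm_eq_Sc hb ha, Sc_comm]

theorem sm_scale {k a b : ℝ} : sm (k * a) (k * b) = sm a b / k := by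
  unfold sm
  rw [← intervalIntegral.integral_div]
  congr 1
  funext t
  have : k * a + t * (k * b - k * a) = k * (a + t * (b - a)) := by ring
  rw [this, one_div, mul_inv, one_div, div_eq_mul_inv, mul_comm]

/-- `sm a b = k * sm (k a) (k b)`. -/
theorem sm_scale' {k a b : ℝ} (hk : 0 < k) : sm a b = k * sm (k * a) (k * b) := by
  rw [sm_scale]
  field_simp

theorem Sc_sub {a b c : ℝ} (ha : 0 < a) (hb : 0 < b) (hc : 0 < c) :
    Sc a b - Sc a c = (c - b) * Lc a b c := by
  unfold Sc Lc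
  rw [← intervalIntegral.integral_sub (Sc_int ha hb) (Sc_int ha hc),
    ← intervalIntegral.integral_const_mul]
  apply intervalIntegral.integral_congr
  intro τ hτ
  rw [uIcc_of_le zero_le_one] at hτ
  have h1 := (wt_pos ha hτ.1 hτ.2).ne'
  have h2 := (wt_pos hb hτ.1 hτ.2).ne'
  have h3 := (wt_pos hc hτ.1 hτ.2).ne'
  simp only
  field_simp
  unfold wt
  ring

theorem sm_sub {a b c : ℝ} (ha : 0 < a) (hb : 0 < b) (hc : 0 < c) :
    sm a b - sm a c = (c - b) * Lc a b c := by
  rw [sm_eq_Sc ha hb, sm_eq_Sc ha hc, Sc_sub ha hb hc]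

theorem Lc_perm1 (a b c : ℝ) : Lc a b c = Lc b a c := by
  unfold Lc
  congr 1
  funext τ
  rw [mul_comm (wt a τ)]

theorem Lc_perm2 (a b c : ℝ) : Lc a b c = Lc a c b := by
  unfold Lc
  congr 1
  funext τ
  rw [mul_assoc, mul_comm (wt b τ), ← mul_assoc]

theorem Lc_nonneg {a b c : ℝ} (ha : 0 < a) (hb : 0 < b) (hc : 0 < c) : 0 ≤ Lc a b c := by
  unfold Lc
  apply intervalIntegral.integral_nonneg zero_le_one
  intro τ hτ
  have h1 := wt_pos ha hτ.1 hτ.2
  have h2 := wt_pos hb hτ.1 hτ.2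
  have h3 := wt_pos hc hτ.1 hτ.2
  have h4 : 0 ≤ 1 - τ := sub_nonneg.2 hτ.2
  positivity

/-- `Lc` decreases in the last argument. -/
theorem Lc_anti {a b c c' : ℝ} (ha : 0 < a) (hb : 0 < b) (hc : 0 < c) (h : c ≤ c') :
    Lc a b c' ≤ Lc a b c := by
  have hc' : 0 < c' := lt_of_lt_of_le hc h
  unfold Lc
  apply intervalIntegral.integral_mono_on zero_le_one (Lc_int ha hb hc') (Lc_int ha hb hc)
  intro τ hτ
  have h1 := wt_pos ha hτ.1 hτ.2
  have h2 := wt_pos hb hτ.1 hτ.2
  have h3 := wt_pos hc hτ.1 hτ.2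
  have h4 : 0 ≤ 1 - τ := sub_nonneg.2 hτ.2
  have h5 : wt c τ ≤ wt c' τ := by
    unfold wt
    nlinarith [mul_le_mul_of_nonneg_right h h4]
  apply div_le_div_of_nonneg_left h4 (by positivity)
  exact mul_le_mul_of_nonneg_left h5 (by positivity)

/-- `c * Lc a b c` increases in `c`. -/
theorem Lc_mul_mono {a b c c' : ℝ} (ha : 0 < a) (hb : 0 < b) (hc : 0 < c) (h : c ≤ c') :
    c * Lc a b c ≤ c' * Lc a b c' := by
  have hc' : 0 < c' := lt_of_lt_of_le hc h
  unfold Lc
  rw [← intervalIntegral.integral_const_mul, ← intervalIntegral.integral_const_mul]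
  apply intervalIntegral.integral_mono_on zero_le_one ((Lc_int ha hb hc).const_mul c)
    ((Lc_int ha hb hc').const_mul c')
  intro τ hτ
  have h1 := wt_pos ha hτ.1 hτ.2
  have h2 := wt_pos hb hτ.1 hτ.2
  have h3 := wt_pos hc hτ.1 hτ.2
  have h3' := wt_pos hc' hτ.1 hτ.2
  have h4 : 0 ≤ 1 - τ := sub_nonneg.2 hτ.2
  have h5 : c * wt c' τ ≤ c' * wt c τ := by
    unfold wt
    nlinarith [mul_le_mul_of_nonneg_right h hτ.1]
  have e1 : c * ((1 - τ) / (wt a τ * wt b τ * wt c τ)) =
      ((1 - τ) / (wt a τ * wt b τ)) * (c / wt c τ) := by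
    field_simp
  have e2 : c' * ((1 - τ) / (wt a τ * wt b τ * wt c' τ)) =
      ((1 - τ) / (wt a τ * wt b τ)) * (c' / wt c' τ) := by
    field_simp
  rw [e1, e2]
  apply mul_le_mul_of_nonneg_left _ (by positivity)
  rw [div_le_div_iff₀ h3 h3']
  exact h5

theorem Lc_cont {a b c : ℝ} (ha : 0 < a) (hb : 0 < b) (hc : 0 < c) :
    ContinuousOn (fun τ => (1 - τ) / (wt a τ * wt b τ * wt c τ)) (Icc 0 1) := by
  apply ContinuousOn.div (by fun_prop)
  · exact (((continuous_wt a).mul (continuous_wt b)).mul (continuous_wt c)).continuousOn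
  · intro τ hτ
    exact (mul_pos (mul_pos (wt_pos ha hτ.1 hτ.2) (wt_pos hb hτ.1 hτ.2))
      (wt_pos hc hτ.1 hτ.2)).ne'

/-- strict version of `Lc_mul_mono`. -/
theorem Lc_mul_strict {a b c c' : ℝ} (ha : 0 < a) (hb : 0 < b) (hc : 0 < c) (h : c < c') :
    c * Lc a b c < c' * Lc a b c' := by
  have hc' : 0 < c' := lt_trans hc h
  unfold Lc
  rw [← intervalIntegral.integral_const_mul, ← intervalIntegral.integral_const_mul]
  have key : ∀ τ ∈ Icc (0:ℝ) 1, (c * ((1 - τ) / (wt a τ * wt b τ * wt c τ)) =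
      ((1 - τ) / (wt a τ * wt b τ)) * (c / wt c τ)) ∧
      (c' * ((1 - τ) / (wt a τ * wt b τ * wt c' τ)) =
      ((1 - τ) / (wt a τ * wt b τ)) * (c' / wt c' τ)) := by
    intro τ hτ
    have h1 := wt_pos ha hτ.1 hτ.2
    have h2 := wt_pos hb hτ.1 hτ.2
    have h3 := wt_pos hc hτ.1 hτ.2
    have h3' := wt_pos hc' hτ.1 hτ.2
    constructor <;> field_simp
  apply intervalIntegral.integral_lt_integral_of_continuousOn_of_le_of_exists_lt zero_lt_one
    ((Lc_cont ha hb hc).const_mul c) ((Lc_cont ha hb hc').const_mul c')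
  · intro τ hτ
    have hτ' : τ ∈ Icc (0:ℝ) 1 := ⟨hτ.1.le, hτ.2⟩
    have h1 := wt_pos ha hτ'.1 hτ'.2
    have h2 := wt_pos hb hτ'.1 hτ'.2
    have h3 := wt_pos hc hτ'.1 hτ'.2
    have h3' := wt_pos hc' hτ'.1 hτ'.2
    have h4 : 0 ≤ 1 - τ := sub_nonneg.2 hτ'.2
    have h5 : c * wt c' τ ≤ c' * wt c τ := by
      unfold wt
      nlinarith [mul_le_mul_of_nonneg_right h.le hτ'.1]
    rw [(key τ hτ').1, (key τ hτ').2]
    apply mul_le_mul_of_nonneg_left _ (by positivity)
    rw [div_le_div_iff₀ h3 h3']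
    exact h5
  · refine ⟨1 / 2, ⟨by norm_num, by norm_num⟩, ?_⟩
    have hτ' : (1 / 2 : ℝ) ∈ Icc (0:ℝ) 1 := ⟨by norm_num, by norm_num⟩
    have h1 := wt_pos ha hτ'.1 hτ'.2
    have h2 := wt_pos hb hτ'.1 hτ'.2
    have h3 := wt_pos hc hτ'.1 hτ'.2
    have h3' := wt_pos hc' hτ'.1 hτ'.2
    have h4 : (0:ℝ) < 1 - 1 / 2 := by norm_num
    have h5 : c * wt c' (1 / 2) < c' * wt c (1 / 2) := by
      unfold wt
      nlinarith
    rw [(key _ hτ').1, (key _ hτ').2]
    apply mul_lt_mul_of_pos_left _ (by positivity)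
    rw [div_lt_div_iff₀ h3 h3']
    exact h5

/-- PENT-1. `M1 = J / UL`, `M2 = J / UB`; `e = 1 + v w J - v X - w Y`. -/
theorem pent1 {v w J UB UL M1 M2 X2 Y1 : ℝ} (hv : 0 < v) (hw : 0 < w) (hUB : 0 < UB)
    (hUL : 0 < UL) (hJ : UB * UL < J) (hM1 : M1 * UL = J) (hM2 : M2 * UB = J)
    (heT : 0 < 1 - w * UL) (heR : 0 < 1 - v * UB) (hX1 : UB ≤ X2) (hX2 : X2 ≤ M1)
    (hY1 : UL ≤ Y1) (hY2 : Y1 ≤ M2)
    (he2 : 0 < 1 + v * w * J - v * X2 - w * M2) (he1 : 0 < 1 + v * w * J - v * M1 - w * Y1) :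
    -log (1 - v * UB) / v <
      (X2 - w * J) * sm (1 - w * UL) (1 + v * w * J - v * X2 - w * M2) +
      (M1 - X2) * sm (1 + v * w * J - v * X2 - w * M2) (1 + v * w * J - v * M1 - w * Y1) +
      (UB - M1) * sm (1 + v * w * J - v * M1 - w * Y1) (1 - v * UB) := by
  set e2 := 1 + v * w * J - v * X2 - w * M2 with he2d
  set e1 := 1 + v * w * J - v * M1 - w * Y1 with he1d
  set eT := 1 - w * UL with heTd
  set eR := 1 - v * UB with heRd
  have hJ0 : 0 < J := lt_trans (mul_pos hUB hUL) hJ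
  have hM1p : 0 < M1 := by
    by_contra h; rw [not_lt] at h
    have := mul_nonpos_of_nonpos_of_nonneg h hUL.le
    linarith
  have hM2p : 0 < M2 := by
    by_contra h; rw [not_lt] at h
    have := mul_nonpos_of_nonpos_of_nonneg h hUB.le
    linarith
  -- D1, D2 positive
  have hD1 : 0 < 1 - v * M1 := by
    have h1 : e1 ≤ (1 - v * M1) * eT := by
      rw [he1d, heTd]
      have : (1 - v * M1) * (1 - w * UL) = 1 + v * w * J - v * M1 - w * UL := by
        rw [← hM1]; ring
      rw [this]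
      have := mul_le_mul_of_nonneg_left hY1 hw.le
      linarith
    have h2 : 0 < (1 - v * M1) * eT := lt_of_lt_of_le he1 h1
    exact (pos_iff_pos_of_mul_pos h2).2 heT
  have hD2 : 0 < 1 - w * M2 := by
    have h1 : e2 ≤ (1 - w * M2) * eR := by
      rw [he2d, heRd]
      have : (1 - w * M2) * (1 - v * UB) = 1 + v * w * J - v * UB - w * M2 := by
        rw [← hM2]; ring
      rw [this]
      have := mul_le_mul_of_nonneg_left hX1 hv.le
      linarith
    have h2 : 0 < (1 - w * M2) * eR := lt_of_lt_of_le he2 h1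
    exact (pos_iff_pos_of_mul_pos h2).2 heR
  set D1 := 1 - v * M1 with hD1d
  set D2 := 1 - w * M2 with hD2d
  have hMU1 : UB ≤ M1 := hX1.trans hX2
  have hMU2 : UL ≤ M2 := hY1.trans hY2
  -- e_O
  set eO := 1 - v * w * J with heOd
  have heOT : eT < eO := by
    rw [heTd, heOd]
    have : v * w * J = w * UL * (v * M1) := by rw [← hM1]; ring
    rw [this]
    have h1 : 0 < w * UL := mul_pos hw hUL
    have h2 := mul_pos h1 hD1
    rw [hD1d] at h2
    linarith
  have heOR : eR ≤ eO := by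
    rw [heRd, heOd]
    have : v * w * J = v * UB * (w * M2) := by rw [← hM2]; ring
    rw [this]
    have h1 : 0 < v * UB := mul_pos hv hUB
    have h2 := mul_pos h1 hD2
    rw [hD2d] at h2
    linarith
  have heO : 0 < eO := lt_trans heT heOT
  have heO1 : eO ≤ 1 := by
    rw [heOd]
    have := mul_pos (mul_pos hv hw) hJ0
    linarith
  -- P = e at the upper right corner of the rectangle
  have hP : 0 < eR * D2 := mul_pos heR hD2
  -- identity for the rectangle
  have hp : -log eR / v = UB * sm 1 eR := by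
    have h1 := sm_log one_pos heR
    rw [log_one, sub_zero] at h1
    have h2 : eR - 1 = -(v * UB) := by rw [heRd]; ring
    rw [h2] at h1
    rw [← h1]
    field_simp
  have hp2 : UB * sm 1 eR = UB * D2 * sm D2 (eR * D2) := by
    have h1 := sm_scale' (k := D2) (a := 1) (b := eR) hD2
    rw [h1]
    have h2 : D2 * eR = eR * D2 := mul_comm _ _
    rw [h2, mul_one]
    ring
  have hUD : UB * D2 = UB - w * J := by rw [hD2d, ← hM2]; ring
  -- additivity on the line Y = M2
  have hadd : (X2 - w * J) * sm D2 e2 = (UB - w * J) * sm D2 (eR * D2) +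
      (X2 - UB) * sm (eR * D2) e2 := by
    have h1 := sm_log hD2 he2
    have h2 := sm_log hD2 hP
    have h3 := sm_log hP he2
    have g1 : e2 - D2 = -(v * (X2 - w * J)) := by rw [he2d, hD2d]; ring
    have g2 : eR * D2 - D2 = -(v * (UB - w * J)) := by rw [heRd, hD2d, ← hM2]; ring
    have g3 : e2 - eR * D2 = -(v * (X2 - UB)) := by rw [heRd, hD2d, he2d, ← hM2]; ring
    rw [g1] at h1
    rw [g2] at h2
    rw [g3] at h3
    have hv' : v ≠ 0 := hv.ne'
    apply mul_left_cancel₀ hv'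
    linarith
  -- scaling factors
  set k := eO / (eR * eT) with hkd
  have hk : 0 < k := div_pos heO (mul_pos heR heT)
  set κ := D2 / eT with hκd
  have hκ : 0 < κ := div_pos hD2 heT
  have hε1 : 0 < k * e1 := mul_pos hk he1
  have hε2 : 0 < k * e2 := mul_pos hk he2
  have hϱ : 0 < k * eR := mul_pos hk heR
  have hPk : 0 < k * (eR * D2) := mul_pos hk hP
  have hkeR : k * eR = eO / eT := by rw [hkd]; field_simp
  have hϱ1 : 1 < k * eR := by
    rw [hkeR, lt_div_iff₀ heT, one_mul]; exact heOT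
  have hPκ : k * (eR * D2) ≤ κ := by
    have h1 : k * (eR * D2) = eO * κ := by rw [hkd, hκd]; field_simp
    rw [h1]
    exact mul_le_of_le_one_left hκ.le heO1
  -- the two inner lemmas
  set La := Lc (k * e1) (k * e2) (k * eR) with hLa
  set Lb := Lc (k * e2) (k * (eR * D2)) (k * eR) with hLb
  set L1 := Lc (k * e1) (k * e2) 1 with hL1
  set Lk := Lc (k * e2) κ 1 with hLk
  set t := 1 / eT with htd
  have ht : 0 < t := by positivity
  have hte : t * eT = 1 := by rw [htd]; field_simp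
  have htD : t * D2 = κ := by rw [htd, hκd]; field_simp
  have hte2 : 0 < t * e2 := mul_pos ht he2
  set Lt := Lc (t * e2) 1 κ with hLt
  have hL1n : 0 ≤ L1 := Lc_nonneg hε1 hε2 one_pos
  have hLkn : 0 ≤ Lk := Lc_nonneg hε2 hκ one_pos
  have hLa1 : L1 < (k * eR) * La := by
    have := Lc_mul_strict hε1 hε2 one_pos hϱ1
    rw [one_mul] at this
    exact this
  have hLb1 : Lk < (k * eR) * Lb := by
    have h1 := Lc_mul_strict hε2 hPk one_pos hϱ1
    rw [one_mul] at h1
    have h2 : Lk ≤ Lc (k * e2) (k * (eR * D2)) 1 := by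
      rw [hLk, Lc_perm2 (k * e2) κ 1, Lc_perm2 (k * e2) (k * (eR * D2)) 1]
      exact Lc_anti hε2 one_pos hPk hPκ
    exact lt_of_le_of_lt h2 h1
  have hLt1 : eR * Lt ≤ eO * Lk := by
    have h0 : t * e2 ≤ k * e2 := by
      apply mul_le_mul_of_nonneg_right _ he2.le
      rw [htd, hkd, div_le_div_iff₀ heT (mul_pos heR heT)]
      have := mul_le_mul_of_nonneg_right heOR heT.le
      linarith
    have h1 := Lc_mul_mono one_pos hκ hte2 h0
    have e3 : Lc 1 κ (t * e2) = Lt := by
      rw [hLt, Lc_perm1 (t * e2) 1 κ, Lc_perm2 1 (t * e2) κ]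
    have e4 : Lc 1 κ (k * e2) = Lk := by
      rw [hLk, Lc_perm2 (k * e2) κ 1, Lc_perm1 (k * e2) 1 κ, Lc_perm2 1 (k * e2) κ]
    rw [e3, e4] at h1
    have h2 : k * e2 = (eO / eR) * (t * e2) := by rw [hkd, htd]; field_simp
    rw [h2] at h1
    have h3 : t * e2 * Lt ≤ (t * e2) * (eO / eR * Lk) := by linarith
    have h4 := le_of_mul_le_mul_left h3 hte2
    have h5 : eR * Lt ≤ eR * (eO / eR * Lk) := mul_le_mul_of_nonneg_left h4 heR.le
    have h6 : eR * (eO / eR * Lk) = eO * Lk := by field_simp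
    linarith
  -- first group
  have G1 : sm eT e2 - sm D2 e2 = -(t * (t * (w * (M2 - UL))) * Lt) := by
    rw [sm_scale' (k := t) (a := eT) (b := e2) ht, sm_scale' (k := t) (a := D2) (b := e2) ht,
      hte, htD, sm_comm one_pos hte2, sm_comm hκ hte2, ← mul_sub, sm_sub hte2 one_pos hκ]
    have h1 : κ - 1 = -(t * (w * (M2 - UL))) := by
      rw [← htD, ← hte, hD2d, heTd]; ring
    rw [h1]; ring
  -- second group
  have G2 : (M1 - X2) * sm e2 e1 + (UB - M1) * sm e1 eR + (X2 - UB) * sm (eR * D2) e2 =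
      k * (k * w) * (((M1 - X2) * (M2 * eR) + (X2 - UB) * (M2 - Y1)) * La +
        (X2 - UB) * (eR * M2) * Lb) := by
    rw [sm_scale' (k := k) (a := e2) (b := e1) hk, sm_scale' (k := k) (a := e1) (b := eR) hk,
      sm_scale' (k := k) (a := eR * D2) (b := e2) hk]
    have h1 : sm (k * e2) (k * e1) - sm (k * e1) (k * eR) = (k * eR - k * e2) * La := by
      rw [sm_comm hε2 hε1, sm_sub hε1 hε2 hϱ]
    have h2 : sm (k * e2) (k * eR) - sm (k * e1) (k * eR) = (k * e1 - k * e2) * La := by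
      rw [sm_comm hε2 hϱ, sm_comm hε1 hϱ, sm_sub hϱ hε2 hε1, hLa]
      rw [Lc_perm1 (k * eR) (k * e2) (k * e1), Lc_perm2 (k * e2) (k * eR) (k * e1),
        Lc_perm1 (k * e2) (k * e1) (k * eR)]
    have h3 : sm (k * (eR * D2)) (k * e2) - sm (k * e2) (k * eR) =
        (k * eR - k * (eR * D2)) * Lb := by
      rw [sm_comm hPk hε2, sm_sub hε2 hPk hϱ]
    have g1 : k * eR - k * e2 = k * (v * (X2 - UB) + w * (M2 * eR)) := by
      rw [heRd, he2d, ← hM2]; ring
    have g2 : k * e1 - k * e2 = k * (-(v * (M1 - X2)) + w * (M2 - Y1)) := by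
      rw [he1d, he2d]; ring
    have g3 : k * eR - k * (eR * D2) = k * (w * (eR * M2)) := by
      rw [hD2d]; ring
    rw [g1] at h1
    rw [g2] at h2
    rw [g3] at h3
    have e5 : sm (k * e2) (k * e1) = sm (k * e1) (k * eR) +
        k * (v * (X2 - UB) + w * (M2 * eR)) * La := by linarith
    have e6 : sm (k * (eR * D2)) (k * e2) = sm (k * e1) (k * eR) +
        k * (-(v * (M1 - X2)) + w * (M2 - Y1)) * La + k * (w * (eR * M2)) * Lb := by linarith
    rw [e5, e6]
    ring
  -- assemble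
  have hα : 0 ≤ (X2 - UB) * (eR * M2) :=
    mul_nonneg (sub_nonneg.2 hX1) (mul_pos heR hM2p).le
  set Γ := (M1 - X2) * (M2 * eR) + (X2 - UB) * (M2 - Y1) with hΓd
  have hΓ1 : (M1 - X2) * (M2 * eR) ≤ Γ := by
    have := mul_nonneg (sub_nonneg.2 hX1) (sub_nonneg.2 hY2)
    linarith
  have hΓ0 : 0 ≤ Γ :=
    le_trans (mul_nonneg (sub_nonneg.2 hX2) (mul_pos hM2p heR).le) hΓ1
  set Δ := eR * (M1 - X2) * UL * κ with hΔd
  have hΔ0 : 0 ≤ Δ := by
    have h1 : 0 ≤ M1 - X2 := sub_nonneg.2 hX2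
    positivity
  have hκ1 : κ ≤ 1 := by
    rw [hκd, div_le_one heT, hD2d, heTd]
    have := mul_le_mul_of_nonneg_left hMU2 hw.le
    linarith
  have hε11 : k * e1 ≤ 1 := by
    have h1 : e1 ≤ D1 * eT := by
      have : D1 * eT = 1 + v * w * J - v * M1 - w * UL := by
        rw [hD1d, heTd, ← hM1]; ring
      rw [this, he1d]
      have := mul_le_mul_of_nonneg_left hY1 hw.le
      linarith
    have h2 : D1 ≤ eR := by
      rw [hD1d, heRd]
      have := mul_le_mul_of_nonneg_left hMU1 hv.le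
      linarith
    have h3 : e1 ≤ eR * eT := h1.trans (mul_le_mul_of_nonneg_right h2 heT.le)
    rw [hkd, div_mul_eq_mul_div, div_le_one (mul_pos heR heT)]
    exact (mul_le_of_le_one_left he1.le heO1).trans h3
  have hΓα : 0 < Γ ∨ 0 < (X2 - UB) * (eR * M2) := by
    rcases eq_or_lt_of_le hX1 with hX | hX
    · left
      have hlt : X2 < M1 := by
        rw [← hX]
        by_contra hcon
        rw [not_lt] at hcon
        have := mul_le_mul_of_nonneg_right hcon hUL.le
        linarith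
      exact lt_of_lt_of_le (mul_pos (sub_pos.2 hlt) (mul_pos hM2p heR)) hΓ1
    · right
      exact mul_pos (sub_pos.2 hX) (mul_pos heR hM2p)
  have hkey : Δ * Lk ≤ Γ * L1 := by
    rcases le_total (k * e1) κ with hc | hc
    · have h1 : Lk ≤ L1 := by
        rw [hLk, hL1, Lc_perm2 (k * e2) κ 1, Lc_perm1 (k * e1) (k * e2) 1,
          Lc_perm2 (k * e2) (k * e1) 1]
        exact Lc_anti hε2 one_pos hε1 hc
      have h2 : Δ ≤ Γ := by
        refine le_trans ?_ hΓ1
        have h3 : UL * κ ≤ M2 := by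
          have := mul_le_mul_of_nonneg_left hκ1 hUL.le
          linarith
        have h4 : 0 ≤ eR * (M1 - X2) := mul_nonneg heR.le (sub_nonneg.2 hX2)
        have h5 := mul_le_mul_of_nonneg_left h3 h4
        rw [hΔd]
        linarith
      calc Δ * Lk ≤ Γ * Lk := mul_le_mul_of_nonneg_right h2 hLkn
        _ ≤ Γ * L1 := mul_le_mul_of_nonneg_left h1 hΓ0
    · have h1 : κ * Lk ≤ (k * e1) * L1 := by
        rw [hLk, hL1, Lc_perm2 (k * e2) κ 1, Lc_perm1 (k * e1) (k * e2) 1,
          Lc_perm2 (k * e2) (k * e1) 1]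
        exact Lc_mul_mono hε2 one_pos hκ hc
      have h2 : Δ * (k * e1) ≤ Γ * κ := by
        have h3 : UL * (k * e1) ≤ M2 := by
          have := mul_le_mul_of_nonneg_left hε11 hUL.le
          linarith
        have h4 : 0 ≤ eR * (M1 - X2) * κ :=
          mul_nonneg (mul_nonneg heR.le (sub_nonneg.2 hX2)) hκ.le
        have h5 := mul_le_mul_of_nonneg_left h3 h4
        have h6 := mul_le_mul_of_nonneg_right hΓ1 hκ.le
        rw [hΔd]
        linarith
      have h7 : κ * (Δ * Lk) ≤ κ * (Γ * L1) := by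
        have h8 : κ * (Δ * Lk) ≤ Δ * ((k * e1) * L1) := by
          have := mul_le_mul_of_nonneg_left h1 hΔ0
          linarith
        have h9 : Δ * ((k * e1) * L1) ≤ Γ * κ * L1 := by
          have := mul_le_mul_of_nonneg_right h2 hL1n
          linarith
        linarith
      exact le_of_mul_le_mul_left h7 hκ
  have hmu : (X2 - w * J) * (M2 - UL) = (X2 - UB) * M2 * eT + (M1 - X2) * UL * D2 := by
    rw [heTd, hD2d]
    linear_combination (w * M2 - 1) * hM1 + (1 - w * UL) * hM2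
  have hmu' : (X2 - w * J) * (M2 - UL) * (eR * t) = (X2 - UB) * (eR * M2) + Δ := by
    rw [hmu, hΔd]
    have h1 : ((X2 - UB) * M2 * eT + (M1 - X2) * UL * D2) * (eR * t) =
        (X2 - UB) * (eR * M2) * (t * eT) + eR * (M1 - X2) * UL * (t * D2) := by ring
    rw [h1, hte, htD, mul_one]
  have hμ0 : 0 ≤ (X2 - w * J) * (M2 - UL) := by
    rw [hmu]
    have h1 : 0 ≤ (X2 - UB) * M2 * eT :=
      mul_nonneg (mul_nonneg (sub_nonneg.2 hX1) hM2p.le) heT.le
    have h2 : 0 ≤ (M1 - X2) * UL * D2 :=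
      mul_nonneg (mul_nonneg (sub_nonneg.2 hX2) hUL.le) hD2.le
    linarith
  have hkt : k * eR = eO * t := by rw [hkeR, htd]; ring
  set α := (X2 - UB) * (eR * M2) with hαd
  set μ := (X2 - w * J) * (M2 - UL) with hμd
  have hfin : 0 < k * (k * w) * (Γ * La + α * Lb) - μ * (t * (t * w)) * Lt := by
    have h12 : Γ * L1 + α * Lk < (k * eR) * (Γ * La + α * Lb) := by
      have e0 : (k * eR) * (Γ * La + α * Lb) = Γ * ((k * eR) * La) + α * ((k * eR) * Lb) := by
        ring
      rw [e0]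
      rcases hΓα with h | h
      · exact add_lt_add_of_lt_of_le (mul_lt_mul_of_pos_left hLa1 h)
          (mul_le_mul_of_nonneg_left hLb1.le hα)
      · exact add_lt_add_of_le_of_lt (mul_le_mul_of_nonneg_left hLa1.le hΓ0)
          (mul_lt_mul_of_pos_left hLb1 h)
    have h3 : (μ * (eR * t)) * (t * (eR * Lt)) ≤ (μ * (eR * t)) * (t * (eO * Lk)) := by
      apply mul_le_mul_of_nonneg_left (mul_le_mul_of_nonneg_left hLt1 ht.le)
      exact mul_nonneg hμ0 (mul_pos heR ht).le
    have h4 : (μ * (eR * t)) * (t * (eO * Lk)) = (α + Δ) * ((k * eR) * Lk) := by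
      rw [hmu', hkt]; ring
    have h5 : (k * eR) * (Γ * L1 + α * Lk) < (k * eR) * ((k * eR) * (Γ * La + α * Lb)) :=
      mul_lt_mul_of_pos_left h12 hϱ
    have h6 : (k * eR) * (Δ * Lk) ≤ (k * eR) * (Γ * L1) :=
      mul_le_mul_of_nonneg_left hkey hϱ.le
    have h7 : 0 < (eR * eR) * ((k * k) * (Γ * La + α * Lb) - μ * (t * t) * Lt) := by
      have e1' : (eR * eR) * ((k * k) * (Γ * La + α * Lb) - μ * (t * t) * Lt) =
          (k * eR) * ((k * eR) * (Γ * La + α * Lb)) - (μ * (eR * t)) * (t * (eR * Lt)) := by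
        ring
      rw [e1']
      rw [h4] at h3
      have e2' : (α + Δ) * ((k * eR) * Lk) = (k * eR) * (α * Lk) + (k * eR) * (Δ * Lk) := by
        ring
      rw [e2'] at h3
      have e3' : (k * eR) * (Γ * L1 + α * Lk) = (k * eR) * (Γ * L1) + (k * eR) * (α * Lk) := by
        ring
      rw [e3'] at h5
      linarith
    have h8 : 0 < (k * k) * (Γ * La + α * Lb) - μ * (t * t) * Lt :=
      (pos_iff_pos_of_mul_pos h7).1 (mul_pos heR heR)
    have h9 := mul_pos hw h8
    have e4' : k * (k * w) * (Γ * La + α * Lb) - μ * (t * (t * w)) * Lt =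
        w * ((k * k) * (Γ * La + α * Lb) - μ * (t * t) * Lt) := by ring
    rw [e4']
    exact h9
  have hG1' : (X2 - w * J) * sm eT e2 = (X2 - w * J) * sm D2 e2 -
      μ * (t * (t * w)) * Lt := by
    have h1 : sm eT e2 = sm D2 e2 + -(t * (t * (w * (M2 - UL))) * Lt) := by linarith
    rw [h1, hμd]; ring
  rw [hp, hp2, hUD, hG1', hadd]
  linarith

end Pool.Agent.Work.MP_b5407d_pos_h57
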