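import Pool.Agent.Work.MP_b5407d_pos_helper57.LastPP3
import Pool.Agent.Work.MP_b5407d_pos_helper9.LastNeg
import Pool.Agent.Work.MP_b5407d_pos_helper13.POSLast

/-! # POS from the comparison at `P2` (helper57) -/

set_option autoImplicit false

open MeasureTheory Set Filter Topology

namespace Pool.Agent.Work.MP_b5407d_pos_h57

open Pool.LBM Pool.Agent.Work.MP_b5407d_pos_h47
open Pool.Agent.Work.MP_b5407d_pos_h9.FV hiding mE
open Pool.Agent.Work.MP_b5407d_pos_h9.LA (SZa caseLast_neg)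
open Pool.Agent.Work.MP_b5407d_pos_h13 (CaseLast)

theorem inZa_of (hZa : SZa) (v w : ℝ) (_ : 0 < v) (w0 : 0 < w) : InZa v w := by
  intro m a b p q h S hJ z2 t2 hz mt hY hX hall
  have hUB : 0 < mE v (a 1) := X0_pos v h
  have htm : t2 < m := by
    rcases mt.2.lt_or_eq with h1 | h1
    · exact h1
    · rw [h1, Y_m h] at hY
      rw [← hY, mul_comm] at hz
      linarith
  have hp1 : (1 : ℝ) ≤ p := by exact_mod_cast S.p1
  have hpq : (p : ℝ) ≤ q := Nat.cast_le.2 S.pq
  have hqm : (q : ℝ) ≤ m := Nat.cast_le.2 S.qm.le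
  have hlt := X_strictAnti (v := v) (w := w) S mt ⟨hqm, le_rfl⟩ htm
  rw [X_m h] at hlt
  exact hZa v w m p q a b z2 t2 w0.ne' h S (hlt.trans_le hX) hz mt.1 mt.2 hY hX
    (fun t h1 h2 => hall t ⟨h1, h2⟩)

/-- **POS** from the comparison at `P2` -/
theorem POS_of_SZa (hZa : SZa) : POS :=
  MP_b5407d_pos_h13.POS_of_last_signs (fun _ _ _ hw => caseLast_neg hZa hw)
    (fun _ _ hv hw => lastPP (inZa_of hZa) hv hw)

end Pool.Agent.Work.MP_b5407d_pos_h57
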